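import Pool.Agent.Helper83.OP.Defs

/-!
# HH: critical graphs with threads of comparable lengths and arbitrary degrees (MP_0dbcb7_co). Definitions.

`G` is the critical graph, `U` the set of hubs (vertices of large degree), `N` the union of the threads between two
vertices which are not hubs. A pin is a thread from a vertex of `N` to a hub. All distances are in `N`.
-/

open Set
open Pool.Agent.Helper83.OP

namespace Pool.Agent.Helper93.HH

/-- `v` is within distance `t` of `u` -/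
def Nr {V : Type} (N : SimpleGraph V) (t : ℕ) (u v : V) : Prop := ∃ p : N.Walk u v, p.length ≤ t

/-- The combinatorial data: `P` are the pins, `Q` the threads between two hubs. -/
structure HD (V P Q : Type) where
  G : SimpleGraph V
  N : SimpleGraph V
  U : Set V
  /-- lengths of the threads are between `r` and `L` -/
  r : ℕ
  L : ℕ
  /-- vertices of degree more than `Kh * r` are hubs -/
  Kh : ℕ
  /-- the pin `p` is the path `w p` from `x p` to `hub p` -/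
  x : P → V
  hub : P → V
  w : ∀ p, G.Walk (x p) (hub p)
  ha : Q → V
  hb : Q → V
  wq : ∀ q, G.Walk (ha q) (hb q)

namespace HD

variable {V P Q : Type} (D : HD V P Q)

/-- number of pins at `v` -/
noncomputable def pn (v : V) : ℕ := {p | D.x p = v}.ncard

/-- the degree in `G` of a vertex of `N` -/
noncomputable def dg (v : V) : ℕ := deg D.N v + D.pn v

/-- the vertices of `N` -/
def VN : Set V := {v | deg D.N v ≠ 0 ∨ ∃ p, D.x p = v}

/-- the properties of the data -/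
structure Ok : Prop where
  r_pos : 2 ≤ D.r
  r_le : D.r ≤ D.L
  N_le : D.N ≤ D.G
  N_U : ∀ u v, D.N.Adj u v → u ∉ D.U
  x_U : ∀ p, D.x p ∉ D.U
  hub_U : ∀ p, D.hub p ∈ D.U
  w_path : ∀ p, (D.w p).IsPath
  w_ge : ∀ p, D.r ≤ (D.w p).length
  w_le : ∀ p, (D.w p).length ≤ D.L
  w_U : ∀ p, ∀ z ∈ (D.w p).support, z ≠ D.hub p → z ∉ D.U
  w_N : ∀ p, ∀ z ∈ (D.w p).support, z ≠ D.x p → z ∉ D.VN
  w_disj : ∀ p p', ∀ z ∈ (D.w p).support, z ∈ (D.w p').support → z ≠ D.x p → z ≠ D.hub p → p = p'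
  ha_U : ∀ q, D.ha q ∈ D.U
  hb_U : ∀ q, D.hb q ∈ D.U
  q_ne : ∀ q, D.ha q ≠ D.hb q
  wq_path : ∀ q, (D.wq q).IsPath
  wq_le : ∀ q, (D.wq q).length ≤ D.L
  wq_U : ∀ q, ∀ z ∈ (D.wq q).support, z ≠ D.ha q → z ≠ D.hb q → z ∉ D.U
  wq_N : ∀ q, ∀ z ∈ (D.wq q).support, z ∉ D.VN
  wq_w : ∀ q p, ∀ z ∈ (D.wq q).support, z ∈ (D.w p).support → z = D.hub p
  wq_disj : ∀ q q', ∀ z ∈ (D.wq q).support, z ∈ (D.wq q').support → z ∉ D.U → q = q'
  /-- degrees -/
  hub_deg : ∀ a ∈ D.U, D.Kh * D.r < deg D.G a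
  hub_sum : ∀ a ∈ D.U, deg D.G a =
    {p | D.hub p = a}.ncard + {q | D.ha q = a}.ncard + {q | D.hb q = a}.ncard
  dg_le : ∀ v, v ∉ D.U → D.dg v ≤ D.Kh * D.r
  two : ∀ v ∈ D.VN, 2 ≤ D.dg v
  three : ∀ p, 3 ≤ D.dg (D.x p)
  /-- the threads in `N` -/
  thr_le : ∀ u v (W : D.N.Walk u v), W.IsPath → (∀ z ∈ W.support, D.dg z = 2) → W.length + 2 ≤ D.L
  thr_ge : ∀ u v (W : D.N.Walk u v), u ≠ v → 3 ≤ D.dg u → 3 ≤ D.dg v → D.r ≤ W.length

/-- the ball of radius `t` in `N` -/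
def ball (t : ℕ) (y : V) : Set V := {v | Nr D.N t y v}

/-- the volume -/
noncomputable def vol [Finite V] (S : Set V) : ℕ :=
  ∑ v ∈ (Set.toFinite S).toFinset, (D.dg v - 2)

/-- the bound for the volume of balls -/
def n0 : ℕ := 4 * D.Kh * D.r

/-- distance to the third nearest pin -/
noncomputable def sg (y : V) : ℕ :=
  sInf ({t | 3 ≤ {p | Nr D.N t y (D.x p)}.ncard} ∪ {Nat.card V})

/-- the radius at which the volume exceeds `n0` -/
noncomputable def Rv [Finite V] (y : V) : ℕ :=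
  sInf ({t | D.n0 < D.vol (D.ball t y)} ∪ {Nat.card V})

/-- distance of the pin `p` to the nearest other pin -/
noncomputable def gp (p : P) : ℕ :=
  sInf ({t | ∃ q, q ≠ p ∧ Nr D.N t (D.x p) (D.x q)} ∪ {Nat.card V})

/-- the radius of the ball with at most two pins and small volume -/
noncomputable def Rs [Finite V] (y : V) : ℕ := min (D.sg y) (D.Rv y)

/-- thick points -/
def Thick [Finite V] (y : V) : Prop := 100 * D.Rv y < D.sg y

/-- the ball of radius `ρ` at `y` has no pins and small volume -/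
def Free [Finite V] (ρ : ℕ) (y : V) : Prop :=
  (∀ p, ¬ Nr D.N ρ y (D.x p)) ∧ D.vol (D.ball ρ y) ≤ D.n0

/-- there are no places -/
structure NoPl [Finite V] (K : ℕ) : Prop where
  /-- E0: a short cycle -/
  e0 : ∀ v (Z : D.N.Walk v v), Z.IsCycle → K * D.L < Z.length
  /-- E1: a cycle and a free ball on it -/
  e1 : ∀ v (Z : D.N.Walk v v), Z.IsCycle → ∀ y ∈ Z.support, ∀ ρ, D.L ≤ ρ → D.Free ρ y →
    K * ρ < Z.length
  /-- E2: two pins of the same hub, near each other -/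
  e2 : ∀ p p', p ≠ p' → D.hub p = D.hub p' → ∀ t, Nr D.N t (D.x p) (D.x p') → K * D.L < t
  /-- E2: two pins of the same hub, one of them isolated -/
  e2' : ∀ p p', p ≠ p' → D.hub p = D.hub p' → ∀ t, Nr D.N t (D.x p) (D.x p') → ∀ ρ, D.L ≤ ρ →
    (∀ q, q ≠ p → ¬ Nr D.N ρ (D.x p) (D.x q)) → D.vol (D.ball ρ (D.x p)) ≤ D.n0 → K * ρ < t
  /-- E3: two double units with the same hubs -/
  e3 : ∀ p p' q q', p ≠ p' → q ≠ p → q' ≠ p' → D.hub p = D.hub p' → D.hub q = D.hub q' →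
    D.hub q ≠ D.hub p → ∀ g g' t, Nr D.N g (D.x p) (D.x q) → Nr D.N g' (D.x p') (D.x q') →
    (∀ s, Nr D.N s (D.x p) (D.x q) → g' ≤ s) → Nr D.N t (D.x p) (D.x p') → ∀ ρ, D.L ≤ ρ → 4 * g ≤ ρ →
    (∀ s, s ≠ p → s ≠ q → ¬ Nr D.N ρ (D.x p) (D.x s)) → D.vol (D.ball ρ (D.x p)) ≤ D.n0 →
    K * ρ < t
  /-- E4: a cycle through exactly one hub and a free ball on it -/
  e4 : ∀ p p', p ≠ p' → D.hub p = D.hub p' → ∀ W : D.N.Walk (D.x p) (D.x p'), W.IsPath →
    ∀ y ∈ W.support, ∀ ρ, D.L ≤ ρ → D.Free ρ y → K * ρ < W.length + deg D.G (D.hub p)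
  /-- no parallel threads between hubs -/
  hh : ∀ q q', q ≠ q' → ¬ (D.ha q = D.ha q' ∧ D.hb q = D.hb q') ∧
    ¬ (D.ha q = D.hb q' ∧ D.hb q = D.ha q')

/-- the drawing of `H`, the graph `G` without the edge `e0`, which is not in `N` -/
structure Dr [Finite V] (H : SimpleGraph V) (e0 : Sym2 V) (X : Sym2 V → Sym2 V → Prop) : Prop where
  eq : H = D.G.deleteEdges {e0}
  e0G : e0 ∈ D.G.edgeSet
  e0N : e0 ∉ D.N.edgeSet
  sym : ∀ f f', X f f' → X f' f
  one : ∀ f ∈ H.edgeSet, {f' | f' ∈ H.edgeSet ∧ X f f'}.ncard ≤ 1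
  pl : PlanarLike H X

end HD

/-! ## Tripods -/

/-- a tripod: a centre outside `U` and walks to three different vertices of `U` -/
structure Tri {V : Type} (H : SimpleGraph V) (U : Set V) where
  c : V
  b : Fin 3 → V
  W : ∀ j, H.Walk c (b j)
  c_U : c ∉ U
  b_U : ∀ j, b j ∈ U
  b_inj : Function.Injective b
  inner : ∀ j, ∀ z ∈ (W j).support, z ∈ U → z = b j

/-- the vertices of a tripod (without the hubs) -/
def Tri.vs {V : Type} {H : SimpleGraph V} {U : Set V} (T : Tri H U) : Set V :=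
  {v | v ∉ U ∧ ∃ j, v ∈ (T.W j).support}

/-- the edges of a tripod -/
def Tri.es {V : Type} {H : SimpleGraph V} {U : Set V} (T : Tri H U) : Set (Sym2 V) :=
  {f | ∃ j, f ∈ (T.W j).edges}

/-- two tripods have a common vertex or cross -/
def Tri.Conf {V : Type} {H : SimpleGraph V} {U : Set V} (X : Sym2 V → Sym2 V → Prop)
    (T T' : Tri H U) : Prop :=
  (∃ v ∈ T.vs, v ∈ T'.vs) ∨ ∃ f ∈ T.es, ∃ f' ∈ T'.es, X f f'

/-! ## Cells -/

/-- Additively weighted Voronoi cells in `N` with centres `C` and radii `ra`. -/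
structure Cel {V P Q : Type} (D : HD V P Q) (C : Set V) (ra : V → ℕ) where
  ctr : V → V
  par : V → V
  dep : V → ℕ
  ctr_mem : ∀ v ∈ D.VN, ctr v ∈ C
  ctr_C : ∀ c ∈ C, ctr c = c
  ctr_ctr : ∀ v, ctr (ctr v) = ctr v
  dep_zero : ∀ v, dep v = 0 ↔ ctr v = v
  par_adj : ∀ v, dep v ≠ 0 → D.N.Adj v (par v)
  par_dep : ∀ v, dep v ≠ 0 → dep (par v) + 1 = dep v
  par_ctr : ∀ v, dep v ≠ 0 → ctr (par v) = ctr v
  dep_min : ∀ v t, Nr D.N t v (ctr v) → dep v ≤ t
  score : ∀ v ∈ D.VN, ∀ c ∈ C, ∀ t, Nr D.N t v c → (dep v : ℤ) - ra (ctr v) ≤ (t : ℤ) - ra c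
  ball : ∀ c ∈ C, ∀ v, Nr D.N (ra c) c v → ctr v = c

/-- the score -/
def Cel.sc {V P Q : Type} {D : HD V P Q} {C : Set V} {ra : V → ℕ} (E : Cel D C ra) (v : V) : ℤ :=
  (E.dep v : ℤ) - ra (E.ctr v)

end Pool.Agent.Helper93.HH
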