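import Pool.Agent.Helper93.HH.Defs

/-!
# HH: basic facts about the definitions
-/

open Set
open Pool.Agent.Helper83.OP

namespace Pool.Agent.Helper93.HH

section Nr

variable {V : Type} {N : SimpleGraph V} {s t : ℕ} {u v w : V}

theorem Nr.refl (N : SimpleGraph V) (t : ℕ) (u : V) : Nr N t u u := ⟨SimpleGraph.Walk.nil, by simp⟩

theorem Nr.symm (h : Nr N t u v) : Nr N t v u := by
  obtain ⟨p, hp⟩ := h
  exact ⟨p.reverse, by rwa [SimpleGraph.Walk.length_reverse]⟩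

theorem Nr.comm : Nr N t u v ↔ Nr N t v u := ⟨Nr.symm, Nr.symm⟩

theorem Nr.trans (h : Nr N s u v) (h' : Nr N t v w) : Nr N (s + t) u w := by
  obtain ⟨p, hp⟩ := h
  obtain ⟨q, hq⟩ := h'
  exact ⟨p.append q, by rw [SimpleGraph.Walk.length_append]; omega⟩

theorem Nr.mono (h : Nr N s u v) (hst : s ≤ t) : Nr N t u v := by
  obtain ⟨p, hp⟩ := h
  exact ⟨p, hp.trans hst⟩

theorem Nr.of_adj (h : N.Adj u v) : Nr N 1 u v := ⟨SimpleGraph.Walk.cons h SimpleGraph.Walk.nil, by simp⟩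

theorem Nr.of_walk (p : N.Walk u v) : Nr N p.length u v := ⟨p, le_rfl⟩

theorem Nr.reachable (h : Nr N t u v) : N.Reachable u v := by
  obtain ⟨p, -⟩ := h
  exact p.reachable

theorem Nr.eq (h : Nr N 0 u v) : u = v := by
  obtain ⟨p, hp⟩ := h
  exact SimpleGraph.Walk.eq_of_length_eq_zero (Nat.le_zero.1 hp)

/-- two vertices of a walk -/
theorem Nr.of_mem {p : N.Walk u v} (hw : w ∈ p.support) : Nr N p.length u w := by
  classical
  exact ⟨p.takeUntil w hw, p.length_takeUntil_le_length hw⟩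

theorem Nr.split (h : Nr N (s + t) u v) : ∃ w, Nr N s u w ∧ Nr N t w v := by
  obtain ⟨p, hp⟩ := h
  refine ⟨p.getVert s, ⟨p.take s, ?_⟩, ⟨p.drop s, ?_⟩⟩
  · rw [SimpleGraph.Walk.take_length]
    exact min_le_left _ _
  · rw [SimpleGraph.Walk.drop_length]
    omega

/-- reachable vertices are at distance less than the number of vertices -/
theorem Nr.of_reachable [Finite V] (h : N.Reachable u v) : Nr N (Nat.card V - 1) u v := by
  classical
  have := Fintype.ofFinite V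
  obtain ⟨p, hp⟩ := h.exists_isPath
  refine ⟨p, ?_⟩
  have := hp.length_lt
  rw [Nat.card_eq_fintype_card]
  omega

theorem Nr.card [Finite V] (h : N.Reachable u v) : Nr N (Nat.card V) u v :=
  (Nr.of_reachable h).mono (Nat.sub_le _ _)

end Nr

namespace HD

variable {V P Q : Type} (D : HD V P Q)

section
variable {D}

theorem VN_of_adj [Finite V] {u v : V} (h : D.N.Adj u v) : u ∈ D.VN := by
  left
  unfold deg
  exact ((Set.ncard_pos (Set.toFinite _)).2 ⟨v, h⟩).ne'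

theorem VN_of_adj' [Finite V] {u v : V} (h : D.N.Adj u v) : v ∈ D.VN := VN_of_adj h.symm

theorem x_VN (p : P) : D.x p ∈ D.VN := Or.inr ⟨p, rfl⟩

theorem VN_of_nr [Finite V] {t : ℕ} {u v : V} (h : Nr D.N t u v) (hu : u ∈ D.VN) : v ∈ D.VN := by
  obtain ⟨p, -⟩ := h
  induction p with
  | nil => exact hu
  | cons h q ih => exact ih (VN_of_adj' h)

theorem VN_U (hD : D.Ok) {v : V} (hv : v ∈ D.VN) : v ∉ D.U := by
  rcases hv with h | ⟨p, rfl⟩
  · have : (D.N.neighborSet v).Nonempty := by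
      rw [Set.nonempty_iff_ne_empty]
      intro h0
      apply h
      unfold deg
      rw [h0, Set.ncard_empty]
    obtain ⟨w, hw⟩ := this
    exact hD.N_U v w hw
  · exact hD.x_U p

theorem VN_of_walk [Finite V] {u v w : V} (p : D.N.Walk u v) (hu : u ∈ D.VN)
    (hw : w ∈ p.support) : w ∈ D.VN := VN_of_nr (Nr.of_mem hw) hu

end

/-! ### the third nearest pin -/

section
variable [Finite V] [Finite P]

theorem sg_le_card (y : V) : D.sg y ≤ Nat.card V := Nat.sInf_le (Or.inr rfl)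

theorem sg_le_of {y : V} {t : ℕ} (h : 3 ≤ {p | Nr D.N t y (D.x p)}.ncard) : D.sg y ≤ t :=
  Nat.sInf_le (Or.inl h)

theorem sg_spec {y : V} (h : D.sg y < Nat.card V) :
    3 ≤ {p | Nr D.N (D.sg y) y (D.x p)}.ncard := by
  have h1 : D.sg y ∈ ({t | 3 ≤ {p | Nr D.N t y (D.x p)}.ncard} ∪ {Nat.card V} : Set ℕ) :=
    Nat.sInf_mem ⟨Nat.card V, Or.inr rfl⟩
  rcases h1 with h1 | h1
  · exact h1
  · exact absurd h1 h.ne

theorem sg_min {y : V} {t : ℕ} (h : t < D.sg y) : {p | Nr D.N t y (D.x p)}.ncard ≤ 2 := by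
  by_contra hcon
  exact absurd (D.sg_le_of (t := t) (y := y) (by omega)) (by omega)

theorem sg_lip {t : ℕ} {y y' : V} (h : Nr D.N t y y') : D.sg y ≤ D.sg y' + t := by
  rcases (D.sg_le_card y').lt_or_eq with h1 | h1
  · refine D.sg_le_of ((D.sg_spec h1).trans (Set.ncard_le_ncard ?_ (Set.toFinite _)))
    intro p hp
    have hp' : Nr D.N (D.sg y') y' (D.x p) := hp
    show Nr D.N (D.sg y' + t) y (D.x p)
    rw [Nat.add_comm]
    exact h.trans hp'
  · have := D.sg_le_card y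
    omega

/-- three different pins -/
theorem sg_three {y : V} {t : ℕ} {p q s : P} (hpq : p ≠ q) (hps : p ≠ s) (hqs : q ≠ s)
    (hp : Nr D.N t y (D.x p)) (hq : Nr D.N t y (D.x q)) (hs : Nr D.N t y (D.x s)) :
    D.sg y ≤ t := by
  refine D.sg_le_of ?_
  have h1 : ({p, q, s} : Set P).ncard = 3 := by
    rw [Set.ncard_eq_three]
    exact ⟨p, q, s, hpq, hps, hqs, rfl⟩
  rw [← h1]
  refine Set.ncard_le_ncard ?_ (Set.toFinite _)
  rintro a (rfl | rfl | rfl)
  · exact hp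
  · exact hq
  · exact hs

/-- three different pins near `y` -/
theorem sg_three' {y : V} (h : D.sg y < Nat.card V) : ∃ p q s : P, p ≠ q ∧ p ≠ s ∧ q ≠ s ∧
    Nr D.N (D.sg y) y (D.x p) ∧ Nr D.N (D.sg y) y (D.x q) ∧ Nr D.N (D.sg y) y (D.x s) := by
  obtain ⟨F, hF, hF3⟩ := Set.exists_subset_card_eq (D.sg_spec h)
  rw [Set.ncard_eq_three] at hF3
  obtain ⟨p, q, s, h1, h2, h3, rfl⟩ := hF3
  exact ⟨p, q, s, h1, h2, h3, hF (by simp), hF (by simp), hF (by simp)⟩

end

/-! ### volume -/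

section
variable [Finite V]

theorem ball_mono {s t : ℕ} (h : s ≤ t) (y : V) : D.ball s y ⊆ D.ball t y := fun _ hv => hv.mono h

theorem ball_sub {s t : ℕ} {y y' : V} (h : Nr D.N t y y') : D.ball s y' ⊆ D.ball (t + s) y :=
  fun _ hv => h.trans hv

theorem vol_mono {S T : Set V} (h : S ⊆ T) : D.vol S ≤ D.vol T := by
  unfold vol
  refine Finset.sum_le_sum_of_subset fun v hv => ?_
  rw [Set.Finite.mem_toFinset] at hv ⊢
  exact h hv

theorem Rv_le_card (y : V) : D.Rv y ≤ Nat.card V := Nat.sInf_le (Or.inr rfl)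

theorem Rv_le_of {y : V} {t : ℕ} (h : D.n0 < D.vol (D.ball t y)) : D.Rv y ≤ t :=
  Nat.sInf_le (Or.inl h)

theorem Rv_spec {y : V} (h : D.Rv y < Nat.card V) : D.n0 < D.vol (D.ball (D.Rv y) y) := by
  have h1 : D.Rv y ∈ ({t | D.n0 < D.vol (D.ball t y)} ∪ {Nat.card V} : Set ℕ) :=
    Nat.sInf_mem ⟨Nat.card V, Or.inr rfl⟩
  rcases h1 with h1 | h1
  · exact h1
  · exact absurd h1 h.ne

theorem Rv_min {y : V} {t : ℕ} (h : t < D.Rv y) : D.vol (D.ball t y) ≤ D.n0 := by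
  by_contra hcon
  exact absurd (D.Rv_le_of (t := t) (y := y) (by omega)) (by omega)

theorem Rv_lip {t : ℕ} {y y' : V} (h : Nr D.N t y y') : D.Rv y ≤ D.Rv y' + t := by
  rcases (D.Rv_le_card y').lt_or_eq with h1 | h1
  · refine D.Rv_le_of (lt_of_lt_of_le (D.Rv_spec h1) (D.vol_mono ?_))
    rw [Nat.add_comm]
    exact D.ball_sub h
  · have := D.Rv_le_card y
    omega

theorem Rs_lip [Finite P] {t : ℕ} {y y' : V} (h : Nr D.N t y y') : D.Rs y ≤ D.Rs y' + t := by
  have h1 := D.sg_lip h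
  have h2 := D.Rv_lip h
  unfold Rs
  omega

theorem Rs_le_sg (y : V) : D.Rs y ≤ D.sg y := min_le_left _ _

theorem Rs_le_Rv (y : V) : D.Rs y ≤ D.Rv y := min_le_right _ _

/-- inside a ball of radius less than `Rs` -/
theorem free_of {y y' : V} {t ρ : ℕ} (h : Nr D.N t y y') (hR : t + ρ < D.Rv y)
    (hp : ∀ p, ¬ Nr D.N ρ y' (D.x p)) : D.Free ρ y' :=
  ⟨hp, (D.vol_mono (D.ball_sub h)).trans (D.Rv_min hR)⟩

theorem vol_zero (hD : D.Ok) {y : V} (hy : y ∉ D.U) : D.vol (D.ball 0 y) ≤ D.Kh * D.r := by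
  have h1 : D.ball 0 y = {y} := by
    ext v
    constructor
    · intro h
      exact (Nr.eq h).symm
    · rintro rfl
      exact Nr.refl _ _ _
  have h2 : (Set.toFinite (D.ball 0 y)).toFinset = {y} := by
    ext v
    rw [Set.Finite.mem_toFinset, h1]
    simp
  unfold vol
  rw [h2, Finset.sum_singleton]
  have := hD.dg_le y hy
  omega

theorem Rv_pos (hD : D.Ok) {y : V} (hy : y ∉ D.U) : 1 ≤ D.Rv y := by
  by_contra hcon
  have h0 : D.Rv y = 0 := by omega
  have hc : 0 < Nat.card V := by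
    have : Nonempty V := ⟨y⟩
    exact Nat.card_pos
  have h1 := D.Rv_spec (y := y) (by omega)
  rw [h0] at h1
  have h2 := D.vol_zero hD hy
  have h3 : D.Kh * D.r ≤ D.n0 := by
    unfold n0
    rw [Nat.mul_assoc]
    exact Nat.le_mul_of_pos_left _ (by norm_num)
  omega

end

/-! ### the nearest pin -/

section
variable [Finite V]

theorem gp_le_card (p : P) : D.gp p ≤ Nat.card V := Nat.sInf_le (Or.inr rfl)

theorem gp_le_of {p q : P} {t : ℕ} (hq : q ≠ p) (h : Nr D.N t (D.x p) (D.x q)) : D.gp p ≤ t :=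
  Nat.sInf_le (Or.inl ⟨q, hq, h⟩)

theorem gp_spec {p : P} (h : D.gp p < Nat.card V) :
    ∃ q, q ≠ p ∧ Nr D.N (D.gp p) (D.x p) (D.x q) := by
  have h1 : D.gp p ∈ ({t | ∃ q, q ≠ p ∧ Nr D.N t (D.x p) (D.x q)} ∪ {Nat.card V} : Set ℕ) :=
    Nat.sInf_mem ⟨Nat.card V, Or.inr rfl⟩
  rcases h1 with h1 | h1
  · exact h1
  · exact absurd h1 h.ne

theorem gp_min {p q : P} {t : ℕ} (h : t < D.gp p) (hq : q ≠ p) : ¬ Nr D.N t (D.x p) (D.x q) := by
  intro h1
  have := D.gp_le_of hq h1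
  omega

theorem gp_le_sg [Finite P] (p : P) : D.gp p ≤ D.sg (D.x p) := by
  rcases (D.sg_le_card (D.x p)).lt_or_eq with h | h
  · obtain ⟨a, b, c, h1, h2, h3, h4, h5, h6⟩ := D.sg_three' h
    by_cases ha : a = p
    · exact D.gp_le_of (by rintro rfl; exact h1 ha) h5
    · exact D.gp_le_of ha h4
  · rw [h]
    exact D.gp_le_card p

end

end HD

end Pool.Agent.Helper93.HH
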