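import Mathlib

/-!
# HH: the numbers of the final sum
-/

namespace Pool.Agent.Helper93.HH

private theorem t_frac {x B k R : ℝ} (hk : 0 < k) (hB : 1000 * x ≤ B) (hBk : B ≤ k) (hR : 0 ≤ R) :
    x * R / k ≤ R / 1000 := by
  rw [div_le_div_iff₀ hk (by norm_num)]
  have : 1000 * x ≤ k := hB.trans hBk
  nlinarith

private theorem five {a1 a2 a3 a4 c0 : ℝ} (h1 : 0 ≤ a1) (h2 : 0 ≤ a2) (h3 : 0 ≤ a3) (h4 : 0 ≤ a4)
    (h0 : 0 ≤ c0) : 1 ≤ (a1 + 1) * (a2 + 1) * (a3 + 1) * (a4 + 1) * (c0 + 1) ∧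
    a4 ≤ (a1 + 1) * (a2 + 1) * (a3 + 1) * (a4 + 1) * (c0 + 1) ∧
    a4 * c0 * a1 ≤ (a1 + 1) * (a2 + 1) * (a3 + 1) * (a4 + 1) * (c0 + 1) ∧
    a2 * (a4 + 1) * c0 ≤ (a1 + 1) * (a2 + 1) * (a3 + 1) * (a4 + 1) * (c0 + 1) ∧
    a3 * c0 ≤ (a1 + 1) * (a2 + 1) * (a3 + 1) * (a4 + 1) * (c0 + 1) := by
  have e1 : 1 ≤ a1 + 1 := by linarith
  have e2 : 1 ≤ a2 + 1 := by linarith
  have e3 : 1 ≤ a3 + 1 := by linarith
  have e4 : 1 ≤ a4 + 1 := by linarith
  have e0 : 1 ≤ c0 + 1 := by linarith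
  have m : ∀ x y : ℝ, 1 ≤ x → 1 ≤ y → 1 ≤ x * y := fun x y hx hy => by nlinarith
  refine ⟨m _ _ (m _ _ (m _ _ (m _ _ e1 e2) e3) e4) e0, ?_, ?_, ?_, ?_⟩
  · have h := m _ _ (m _ _ (m _ _ e1 e2) e3) e0
    calc a4 ≤ a4 + 1 := by linarith
      _ ≤ (a4 + 1) * ((a1 + 1) * (a2 + 1) * (a3 + 1) * (c0 + 1)) :=
        le_mul_of_one_le_right (by linarith) h
      _ = _ := by ring
  · have h := m _ _ e2 e3
    calc a4 * c0 * a1 ≤ (a4 + 1) * (c0 + 1) * (a1 + 1) := by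
          apply mul_le_mul (mul_le_mul (by linarith) (by linarith) h0 (by linarith)) (by linarith)
            h1 (by positivity)
      _ ≤ (a4 + 1) * (c0 + 1) * (a1 + 1) * ((a2 + 1) * (a3 + 1)) :=
        le_mul_of_one_le_right (by positivity) h
      _ = _ := by ring
  · have h := m _ _ e1 e3
    calc a2 * (a4 + 1) * c0 ≤ (a2 + 1) * (a4 + 1) * (c0 + 1) := by
          apply mul_le_mul (mul_le_mul (by linarith) le_rfl (by linarith) (by linarith))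
            (by linarith) h0 (by positivity)
      _ ≤ (a2 + 1) * (a4 + 1) * (c0 + 1) * ((a1 + 1) * (a3 + 1)) :=
        le_mul_of_one_le_right (by positivity) h
      _ = _ := by ring
  · have h := m _ _ (m _ _ e1 e2) e4
    calc a3 * c0 ≤ (a3 + 1) * (c0 + 1) := mul_le_mul (by linarith) (by linarith) h0 (by linarith)
      _ ≤ (a3 + 1) * (c0 + 1) * ((a1 + 1) * (a2 + 1) * (a4 + 1)) :=
        le_mul_of_one_le_right (by positivity) h
      _ = _ := by ring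

theorem numeric (a1 a2 a3 a4 c0 k r u L z b T lg B : ℝ) (h1 : 0 ≤ a1) (h2 : 0 ≤ a2) (h3 : 0 ≤ a3)
    (h4 : 0 ≤ a4) (h0 : 0 ≤ c0) (hk : 1 ≤ k) (hr : 1000 ≤ r) (hu : 1 ≤ u) (hL0 : 0 ≤ L)
    (hL : L ≤ c0 * r) (hz0 : 0 ≤ z) (hb0 : 0 ≤ b) (hb : b ≤ 8 * z) (hT0 : 0 ≤ T)
    (hT : T ≤ a1 * (k + 1) * (u + b / r)) (hz : 1000 * (a4 + 1) * z ≤ r * u) (hlg : 0 ≤ lg)
    (hB : B = 1000 * ((a1 + 1) * (a2 + 1) * (a3 + 1) * (a4 + 1) * (c0 + 1)))
    (hB1 : B * (lg + 2) ≤ k) (hB2 : B ≤ k) :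
    a4 * (r * u / k + z + L / k ^ 2 * T) + (b + 1) / k + (a2 * (a4 * (lg + 1) + 1) * L * u) / k +
      r / (16 * (a1 + 1) * (k + 1)) * T + a3 * L * u * (2 / k) < r * u := by
  obtain ⟨f1, f2, f3, f4, f5⟩ := five h1 h2 h3 h4 h0
  obtain ⟨R, hR⟩ : ∃ R, R = r * u := ⟨_, rfl⟩
  have hk0 : 0 < k := by linarith
  have hr0 : 0 < r := by linarith
  have hR1 : 1000 ≤ R := by rw [hR]; nlinarith
  have hR0 : 0 ≤ R := by linarith
  have hLu : L * u ≤ c0 * R := by rw [hR]; nlinarith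
  have hzR : (a4 + 1) * z ≤ R / 1000 := by rw [hR]; linarith
  have hzR' : z ≤ R / 1000 := by nlinarith
  have hbR : b ≤ R / 100 := by linarith
  have hrT : r * T ≤ a1 * (k + 1) * (R + b) := by
    have e1 := mul_le_mul_of_nonneg_left hT hr0.le
    have e2 : r * (a1 * (k + 1) * (u + b / r)) = a1 * (k + 1) * (R + b) := by
      rw [hR]
      field_simp
    linarith
  have t1 : a4 * (R / k) ≤ R / 1000 := by
    have := t_frac (x := a4) hk0 (by rw [hB]; linarith) hB2 hR0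
    calc a4 * (R / k) = a4 * R / k := by ring
      _ ≤ _ := this
  have t2 : a4 * z ≤ R / 1000 := by nlinarith
  have t3 : a4 * (L / k ^ 2 * T) ≤ 4 * (R / 1000) := by
    have e1 : L * T ≤ c0 * (r * T) := by nlinarith
    have e2 : L * T ≤ c0 * (a1 * (k + 1) * (R + b)) :=
      e1.trans (mul_le_mul_of_nonneg_left hrT h0)
    have e3 : (k + 1) * (R + b) ≤ 4 * k * R := by nlinarith
    have e4 : L * T ≤ c0 * a1 * (4 * k * R) := by
      calc L * T ≤ c0 * (a1 * (k + 1) * (R + b)) := e2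
        _ = c0 * a1 * ((k + 1) * (R + b)) := by ring
        _ ≤ _ := mul_le_mul_of_nonneg_left e3 (by positivity)
    have e5 : a4 * (L * T) ≤ a4 * (c0 * a1 * (4 * k * R)) := mul_le_mul_of_nonneg_left e4 h4
    have e6 := t_frac (x := a4 * c0 * a1) hk0 (by rw [hB]; linarith) hB2 hR0
    calc a4 * (L / k ^ 2 * T) = a4 * (L * T) / k ^ 2 := by ring
      _ ≤ a4 * (c0 * a1 * (4 * k * R)) / k ^ 2 := div_le_div_of_nonneg_right e5 (by positivity)
      _ = 4 * (a4 * c0 * a1 * R / k) := by field_simp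
      _ ≤ 4 * (R / 1000) := by linarith
  have t4 : (b + 1) / k ≤ R / 50 := by
    rw [div_le_iff₀ hk0]
    nlinarith
  have t5 : (a2 * (a4 * (lg + 1) + 1) * L * u) / k ≤ R / 1000 := by
    have e1 : a4 * (lg + 1) + 1 ≤ (a4 + 1) * (lg + 2) := by nlinarith
    have e2 : a2 * (a4 * (lg + 1) + 1) * (L * u) ≤ a2 * ((a4 + 1) * (lg + 2)) * (c0 * R) := by
      apply mul_le_mul (mul_le_mul_of_nonneg_left e1 h2) hLu (by positivity) (by positivity)
    rw [div_le_div_iff₀ hk0 (by norm_num)]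
    have e3 : 1000 * (a2 * (a4 + 1) * c0) * (lg + 2) ≤ k := by
      refine le_trans ?_ hB1
      apply mul_le_mul_of_nonneg_right _ (by linarith)
      rw [hB]
      linarith
    calc a2 * (a4 * (lg + 1) + 1) * L * u * 1000 = (a2 * (a4 * (lg + 1) + 1) * (L * u)) * 1000 := by
          ring
      _ ≤ (a2 * ((a4 + 1) * (lg + 2)) * (c0 * R)) * 1000 := by linarith
      _ = R * (1000 * (a2 * (a4 + 1) * c0) * (lg + 2)) := by ring
      _ ≤ R * k := mul_le_mul_of_nonneg_left e3 hR0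
  have t6 : r / (16 * (a1 + 1) * (k + 1)) * T ≤ R / 8 := by
    have e0 : r / (16 * (a1 + 1) * (k + 1)) * T = (r * T) / (16 * (a1 + 1) * (k + 1)) := by ring
    rw [e0, div_le_iff₀ (by positivity)]
    have e1 : a1 * (k + 1) * (R + b) ≤ (a1 + 1) * (k + 1) * (2 * R) := by
      apply mul_le_mul _ (by linarith) (by positivity) (by positivity)
      nlinarith
    nlinarith
  have t7 : a3 * L * u * (2 / k) ≤ 2 * (R / 1000) := by
    have e1 : a3 * (L * u) ≤ a3 * (c0 * R) := mul_le_mul_of_nonneg_left hLu h3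
    have e6 := t_frac (x := a3 * c0) hk0 (by rw [hB]; linarith) hB2 hR0
    calc a3 * L * u * (2 / k) = 2 * (a3 * (L * u) / k) := by ring
      _ ≤ 2 * (a3 * (c0 * R) / k) := by
        have := div_le_div_of_nonneg_right e1 hk0.le
        linarith
      _ = 2 * (a3 * c0 * R / k) := by ring
      _ ≤ 2 * (R / 1000) := by linarith
  rw [← hR]
  have : a4 * (R / k + z + L / k ^ 2 * T) = a4 * (R / k) + a4 * z + a4 * (L / k ^ 2 * T) := by ring
  rw [this]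
  linarith

end Pool.Agent.Helper93.HH
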