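import Pool.Agent.Helper93.HH.FL
import Pool.Agent.Helper93.HH.Num
import Pool.Agent.Helper43.HH.TL
import Pool.Agent.Helper85.HH.NP
import Pool.Agent.Helper70.HH.QQ
import Pool.Agent.Helper27.HH.Cyc
import Pool.Agent.Helper27.HH.Growth
import Pool.Agent.Helper63.HH.CE
import Pool.Agent.Helper63.HH.TC
import Pool.Agent.Helper71.UT.ToThreads

/-!
# HH: the final sum of the counting half
-/

open Set
open Pool.Agent.Helper83.OP

namespace Pool.Agent.Helper93.HH

open HD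

/-- the mass identity -/
theorem mass {V P Q : Type} [Finite V] [Fintype P] [Fintype Q] (D : HD V P Q) (hD : D.Ok) :
    (D.r : ℝ) * D.U.ncard = ∑ p : P, (D.r : ℝ) / deg D.G (D.hub p) +
      ∑ q : Q, ((D.r : ℝ) / deg D.G (D.ha q) + (D.r : ℝ) / deg D.G (D.hb q)) := by
  classical
  have := Fintype.ofFinite V
  obtain ⟨Us, hUs⟩ : ∃ Us : Finset V, ∀ a, a ∈ Us ↔ a ∈ D.U := ⟨D.U.toFinset, fun a => by simp⟩
  have hc : D.U.ncard = Us.card := by
    rw [← Set.ncard_coe_finset]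
    congr 1
    ext a
    exact (hUs a).symm
  have key : ∀ {S : Type} [Fintype S] (f : S → V), (∀ s, f s ∈ D.U) →
      ∑ s : S, (D.r : ℝ) / deg D.G (f s) =
        ∑ a ∈ Us, ({s | f s = a}.ncard : ℝ) * ((D.r : ℝ) / deg D.G a) := by
    intro S _ f hf
    rw [← Finset.sum_fiberwise_of_maps_to (s := Finset.univ) (t := Us) (g := f)
      (fun s _ => (hUs _).2 (hf s))]
    refine Finset.sum_congr rfl fun a _ => ?_
    rw [Finset.sum_congr rfl (g := fun _ => (D.r : ℝ) / deg D.G a) (by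
      intro s hs
      rw [(Finset.mem_filter.1 hs).2]), Finset.sum_const, nsmul_eq_mul]
    congr 2
    rw [← Set.ncard_coe_finset]
    congr 1
    ext s
    simp
  rw [Finset.sum_add_distrib, key _ hD.hub_U, key _ hD.ha_U, key _ hD.hb_U,
    ← Finset.sum_add_distrib, ← Finset.sum_add_distrib, hc]
  have h1 : ∀ a ∈ Us, ({p | D.hub p = a}.ncard : ℝ) * ((D.r : ℝ) / deg D.G a) +
      (({q | D.ha q = a}.ncard : ℝ) * ((D.r : ℝ) / deg D.G a) +
        ({q | D.hb q = a}.ncard : ℝ) * ((D.r : ℝ) / deg D.G a)) = D.r := by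
    intro a ha
    have h2 := hD.hub_sum a ((hUs a).1 ha)
    have h3 := hD.hub_deg a ((hUs a).1 ha)
    have h4 : (0 : ℝ) < deg D.G a := by
      have : 0 < deg D.G a := by omega
      exact_mod_cast this
    have h5 : (deg D.G a : ℝ) = {p | D.hub p = a}.ncard + {q | D.ha q = a}.ncard +
        {q | D.hb q = a}.ncard := by exact_mod_cast h2
    field_simp
    rw [h5]
    ring
  rw [Finset.sum_congr rfl h1, Finset.sum_const, nsmul_eq_mul]
  ring

/-- an edge is in at most one pin -/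
theorem edge_pin {V P Q : Type} (D : HD V P Q) (hD : D.Ok) {e : Sym2 V} {p p' : P}
    (hp : e ∈ (D.w p).edges) (hp' : e ∈ (D.w p').edges) : p = p' := by
  induction e with
  | h a b =>
  have h1 := SimpleGraph.Walk.fst_mem_support_of_mem_edges _ hp
  have h2 := SimpleGraph.Walk.snd_mem_support_of_mem_edges _ hp
  have h1' := SimpleGraph.Walk.fst_mem_support_of_mem_edges _ hp'
  have h2' := SimpleGraph.Walk.snd_mem_support_of_mem_edges _ hp'
  by_contra hne
  have k1 : a = D.x p ∨ a = D.hub p := by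
    by_contra hcon
    push Not at hcon
    exact hne (hD.w_disj p p' a h1 h1' hcon.1 hcon.2)
  have k2 : b = D.x p ∨ b = D.hub p := by
    by_contra hcon
    push Not at hcon
    exact hne (hD.w_disj p p' b h2 h2' hcon.1 hcon.2)
  have hab : D.G.Adj a b := SimpleGraph.Walk.adj_of_mem_edges _ hp
  -- the edge joins the two ends
  have hlen := hD.w_ge p
  have hr := hD.r_pos
  have hpath := hD.w_path p
  obtain ⟨t, ht, h⟩ := Pool.Agent.Helper71.UT.edge_index (D.w p) hp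
  have hinj := hpath.getVert_injOn
  have g0 : (D.w p).getVert 0 = D.x p := SimpleGraph.Walk.getVert_zero _
  have gl : (D.w p).getVert (D.w p).length = D.hub p := SimpleGraph.Walk.getVert_length _
  have key : ∀ s, s ≤ (D.w p).length → ((D.w p).getVert s = D.x p ∨ (D.w p).getVert s = D.hub p) →
      s = 0 ∨ s = (D.w p).length := by
    intro s hs h3
    rcases h3 with h3 | h3
    · left
      exact hinj (by simpa using hs) (by simp) (h3.trans g0.symm)
    · right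
      exact hinj (by simpa using hs) (by simp) (h3.trans gl.symm)
  rcases Sym2.eq_iff.1 h with ⟨e1, e2⟩ | ⟨e1, e2⟩
  · have c1 := key t ht.le (by rw [← e1]; exact k1)
    have c2 := key (t + 1) ht (by rw [← e2]; exact k2)
    omega
  · have c1 := key t ht.le (by rw [← e2]; exact k2)
    have c2 := key (t + 1) ht (by rw [← e1]; exact k1)
    omega

/-- the constant `Kh` -/
theorem exists_Kh (B : ℕ) : ∃ Kh : ℕ, 1 ≤ Kh ∧ B * (Nat.log 2 Kh + 2) ≤ Kh ∧ B ≤ Kh := by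
  obtain ⟨n, hn⟩ : ∃ n, n = B + 4 := ⟨_, rfl⟩
  refine ⟨4 ^ n, Nat.one_le_pow _ _ (by norm_num), ?_, ?_⟩
  · have h1 : Nat.log 2 (4 ^ n) = 2 * n := by
      rw [show (4 : ℕ) = 2 ^ 2 by norm_num, ← pow_mul, Nat.log_pow (by norm_num)]
    have h2 : B < 2 ^ B := Nat.lt_two_pow_self
    have h3 : n < 2 ^ n := Nat.lt_two_pow_self
    have h4 : 2 * n + 2 ≤ 16 * 2 ^ B * 16 := by
      have h5 : n < 2 ^ B * 16 := by
        rw [hn, pow_add] at h3
        rw [hn]
        omega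
      omega
    rw [h1]
    have h6 : 4 ^ n = 2 ^ B * (16 * 2 ^ B * 16) := by
      rw [hn, show (4 : ℕ) = 2 * 2 by norm_num, mul_pow, pow_add]
      ring
    rw [h6]
    exact Nat.mul_le_mul h2.le h4
  · have h2 : n < 2 ^ n := Nat.lt_two_pow_self
    have h3 : 2 ^ n ≤ 4 ^ n := Nat.pow_le_pow_left (by norm_num) n
    omega

/-- the counting half -/
theorem count (C0 : ℕ) : ∃ Kh K r0 : ℕ, 1 ≤ Kh ∧ ∀ (V P Q : Type) [Finite V] [Finite P]
    [Finite Q]
    (D : HD V P Q) (H : SimpleGraph V) (e0 : Sym2 V) (X : Sym2 V → Sym2 V → Prop),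
    D.Ok → D.L ≤ C0 * D.r → D.Kh = Kh → r0 ≤ D.r → D.U.Nonempty → D.Dr H e0 X →
    ¬ D.NoPl K := by
  classical
  obtain ⟨A1, K1, hTL⟩ := Pool.Agent.Helper43.HH.TL
  obtain ⟨A2, hNP⟩ := Pool.Agent.Helper85.HH.NP
  obtain ⟨A3, hQQ⟩ := Pool.Agent.Helper70.HH.QQ
  obtain ⟨A4, hFL⟩ := FL C0
  -- one big constant
  obtain ⟨a1, ha1⟩ : ∃ a1, a1 = 2 * A1 + 1 := ⟨_, rfl⟩
  obtain ⟨B, hB⟩ : ∃ B, B = 1000 * ((a1 + 1) * (A2 + 1) * (A3 + 1) * (A4 + 1) * (C0 + 1)) :=
    ⟨_, rfl⟩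
  obtain ⟨Kh, hKh1, hKh2, hKh3⟩ := exists_Kh B
  obtain ⟨D0, hD0⟩ : ∃ D0, D0 = A4 * (Nat.log 2 Kh + 1) := ⟨_, rfl⟩
  obtain ⟨M, hM⟩ : ∃ M, M = 16 * (a1 + 1) * (Kh + 1) := ⟨_, rfl⟩
  obtain ⟨M2, hM2⟩ : ∃ M2, M2 = 1000 * (A4 + 1) := ⟨_, rfl⟩
  obtain ⟨K2, hNP⟩ := hNP D0
  obtain ⟨K3, hFL⟩ := hFL Kh D0 M hKh1 (by rw [hD0])
  obtain ⟨K4, r0, hTC⟩ := Pool.Agent.Helper63.HH.TC C0 Kh (a1 * (Kh + 1)) M2
  obtain ⟨K, hK⟩ : ∃ K, K = K1 + K2 + K3 + K4 + 10 := ⟨_, rfl⟩
  refine ⟨Kh, 10 ^ 6 * K, r0 + 1000, hKh1, ?_⟩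
  intro V P Q _ _ _ D H e0 X hD hL hKh hr hU hX hN
  have := Fintype.ofFinite P
  have := Fintype.ofFinite Q
  have hmono : ∀ K', K' ≤ 10 ^ 6 * K → D.NoPl K' := by
    intro K' h
    have e : ∀ a b : ℕ, K' * a + b ≤ 10 ^ 6 * K * a + b := fun a b =>
      Nat.add_le_add_right (Nat.mul_le_mul_right _ h) _
    have e' : ∀ a : ℕ, K' * a ≤ 10 ^ 6 * K * a := fun a => Nat.mul_le_mul_right _ h
    exact
      { e0 := fun v Z hZ => lt_of_le_of_lt (e' _) (hN.e0 v Z hZ)
        e1 := fun v Z hZ y hy ρ h1 h2 => lt_of_le_of_lt (e' _) (hN.e1 v Z hZ y hy ρ h1 h2)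
        e2 := fun p p' h1 h2 t h3 => lt_of_le_of_lt (e' _) (hN.e2 p p' h1 h2 t h3)
        e2' := fun p p' h1 h2 t h3 ρ h4 h5 h6 =>
          lt_of_le_of_lt (e' _) (hN.e2' p p' h1 h2 t h3 ρ h4 h5 h6)
        e3 := fun p p' q q' h1 h2 h3 h4 h5 h5' g g' t h6 h7 h8 h9 ρ h10 h11 h12 h13 =>
          lt_of_le_of_lt (e' _) (hN.e3 p p' q q' h1 h2 h3 h4 h5 h5' g g' t h6 h7 h8 h9 ρ h10 h11
            h12 h13)
        e4 := fun p p' h1 h2 W hW y hy ρ h3 h4 =>
          lt_of_le_of_lt (e' _) (hN.e4 p p' h1 h2 W hW y hy ρ h3 h4)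
        hh := hN.hh }
  have hNK := hmono K (by omega)
  obtain ⟨S⟩ := Pool.Agent.Helper63.HH.exists_sys (K := K) hD (by omega) hN
    (Pool.Agent.Helper27.HH.cyc hD (K := 5000 * K) (by omega) (hmono (200 * (5000 * K)) (by omega)))
  have hcyc := Pool.Agent.Helper27.HH.cyc hD (K := 10) (by norm_num) (hmono (200 * 10) (by omega))
  have hg := Pool.Agent.Helper27.HH.growth hD (K := K) (by omega) hNK hcyc
  -- the four bounds
  obtain ⟨Bp, hBp⟩ : ∃ Bp : Set P, Bp = {p | e0 ∈ (D.w p).edges} := ⟨_, rfl⟩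
  have hBp1 : Bp.ncard ≤ 1 := by
    rw [hBp, Set.ncard_le_one_iff (Set.toFinite _)]
    intro p p' hp hp'
    exact edge_pin D hD hp hp'
  obtain ⟨Bq, hBq⟩ : ∃ Bq : Set P, Bq = S.Bd ∪ Bp := ⟨_, rfl⟩
  have hBqm : ∀ p, p ∈ Bq ↔ p ∈ S.Bd ∨ p ∈ Bp := fun p => by rw [hBq]; rfl
  have hT1 := hTL V P Q D K H e0 X Bq hD (by omega) hNK hX
    (fun p h => (hBqm p).2 (Or.inl (S.bd_thick p h)))
    (fun p h => (hBqm p).2 (Or.inl (S.bd_card p h)))
    (fun p h => (hBqm p).2 (Or.inr (by rw [hBp]; exact h)))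
  have hL0' : (0 : ℝ) < D.L := by
    have h1 := hD.r_pos
    have h2 := hD.r_le
    have : 0 < D.L := by omega
    exact_mod_cast this
  have hT : ∑ p : P, (if p ∈ S.Bd then 0 else 1 / ((D.sg (D.x p) : ℝ) + D.L)) ≤
      ((2 * A1 + 1) * (D.Kh + 1) : ℝ) * ((D.U.ncard : ℝ) + S.Bd.ncard / D.r) := by
    have h1 : ∑ p : P, (if p ∈ S.Bd then 0 else 1 / ((D.sg (D.x p) : ℝ) + D.L)) ≤
        ∑ p : P, (if p ∈ Bq then 0 else 1 / ((D.sg (D.x p) : ℝ) + D.L)) +
        ∑ p : P, (if p ∈ Bp then 1 / (D.L : ℝ) else 0) := by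
      rw [← Finset.sum_add_distrib]
      refine Finset.sum_le_sum fun p _ => ?_
      have h2 : 1 / ((D.sg (D.x p) : ℝ) + D.L) ≤ 1 / (D.L : ℝ) := by
        apply one_div_le_one_div_of_le hL0'
        have : (0 : ℝ) ≤ D.sg (D.x p) := by positivity
        linarith
      have h3 : 0 ≤ 1 / (D.L : ℝ) := by positivity
      by_cases c1 : p ∈ S.Bd <;> by_cases c2 : p ∈ Bp <;> simp only [hBqm, c1, c2,
        or_true, or_false, true_or, false_or, if_true, if_false] <;> linarith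
    have h2 : ∑ p : P, (if p ∈ Bp then 1 / (D.L : ℝ) else 0) ≤ 1 / (D.L : ℝ) := by
      rw [← Finset.sum_filter, Finset.sum_const, nsmul_eq_mul]
      have h3 : (Finset.univ.filter fun p => p ∈ Bp).card = Bp.ncard := by
        rw [← Set.ncard_coe_finset]
        congr 1
        ext p
        simp
      rw [h3]
      have h4 : (Bp.ncard : ℝ) ≤ 1 := by exact_mod_cast hBp1
      have h5 : 0 ≤ 1 / (D.L : ℝ) := by positivity
      nlinarith
    have h3 : (Bq.ncard : ℝ) ≤ S.Bd.ncard + 1 := by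
      have := (Set.ncard_union_le S.Bd Bp)
      have h4 : Bq.ncard ≤ S.Bd.ncard + 1 := by rw [hBq]; omega
      exact_mod_cast h4
    have hrr : (1 : ℝ) ≤ D.r := by
      have := hD.r_pos
      have : 1 ≤ D.r := by omega
      exact_mod_cast this
    have hLL : (D.r : ℝ) ≤ D.L := by exact_mod_cast hD.r_le
    have h5 : 1 / (D.L : ℝ) ≤ 1 := by
      rw [div_le_one hL0']
      linarith
    have hu1 : (1 : ℝ) ≤ D.U.ncard := by
      have : 1 ≤ D.U.ncard := (Set.ncard_pos (Set.toFinite _)).2 hU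
      exact_mod_cast this
    have h6 : (Bq.ncard : ℝ) / D.r ≤ S.Bd.ncard / D.r + D.U.ncard := by
      have e1 : (Bq.ncard : ℝ) / D.r ≤ (S.Bd.ncard + 1) / D.r :=
        div_le_div_of_nonneg_right h3 (by linarith)
      have e2 : ((S.Bd.ncard : ℝ) + 1) / D.r = S.Bd.ncard / D.r + 1 / D.r := by ring
      have e3 : 1 / (D.r : ℝ) ≤ 1 := by
        rw [div_le_one (by linarith)]
        exact hrr
      linarith
    have hb0 : 0 ≤ (S.Bd.ncard : ℝ) / D.r := by positivity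
    have h7 : (A1 : ℝ) * (D.Kh + 1) * ((D.U.ncard : ℝ) + (Bq.ncard : ℝ) / D.r) ≤
        A1 * (D.Kh + 1) * (2 * (D.U.ncard + S.Bd.ncard / D.r)) := by
      apply mul_le_mul_of_nonneg_left _ (by positivity)
      linarith
    have h8 : (1 : ℝ) ≤ (D.Kh + 1) * (D.U.ncard + S.Bd.ncard / D.r) := by
      have : (0 : ℝ) ≤ D.Kh := by positivity
      nlinarith
    calc _ ≤ _ := h1
      _ ≤ A1 * (D.Kh + 1) * (2 * (D.U.ncard + S.Bd.ncard / D.r)) + 1 := by linarith
      _ ≤ A1 * (D.Kh + 1) * (2 * (D.U.ncard + S.Bd.ncard / D.r)) +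
          (D.Kh + 1) * (D.U.ncard + S.Bd.ncard / D.r) := by linarith
      _ = _ := by ring
  have hT' : ∑ p : P, (if p ∈ S.Bd then 0 else 1 / ((D.sg (D.x p) : ℝ) + D.L)) ≤
      ((a1 * (Kh + 1) : ℕ) : ℝ) * ((D.U.ncard : ℝ) + S.Bd.ncard / D.r) := by
    rw [hKh] at hT
    rw [ha1]
    push_cast
    exact hT
  have hZ := hTC V P Q D K H e0 X S hD hL hKh hKh1 (by omega) (by omega) hNK hX hg hT'
  have hF := hFL V P Q D K H e0 X S hD hL hKh (by omega) hNK hX
  have hnear := hNP V P Q D K H e0 X hD (by omega) hNK hX hU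
  have hQ := hQQ V P Q D K H e0 X hD hNK hX hU
  have hm := mass D hD
  obtain ⟨T, hTd⟩ : ∃ T : ℝ, T = ∑ p : P, (if p ∈ S.Bd then 0 else
    1 / ((D.sg (D.x p) : ℝ) + D.L)) := ⟨_, rfl⟩
  rw [← hTd] at hT' hF
  have hk1 : (1 : ℝ) ≤ Kh := by exact_mod_cast hKh1
  have hk0 : (0 : ℝ) < Kh := by linarith
  have hom : ∀ a ∈ D.U, (D.r : ℝ) / deg D.G a ≤ 1 / (Kh : ℝ) := by
    intro a ha
    have h3 := hD.hub_deg a ha
    rw [hKh] at h3
    have h4 : (0 : ℝ) < deg D.G a := by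
      have : 0 < deg D.G a := by omega
      exact_mod_cast this
    rw [div_le_div_iff₀ h4 hk0]
    have h5 : ((Kh * D.r : ℕ) : ℝ) ≤ deg D.G a := by exact_mod_cast h3.le
    push_cast at h5
    linarith
  have hMpos : (0 : ℝ) < M := by
    have : 0 < M := by rw [hM]; positivity
    exact_mod_cast this
  -- split the pins
  have hsplit : ∑ p : P, (D.r : ℝ) / deg D.G (D.hub p) ≤
      (∑ p : P, (if (p ∉ S.Bd ∧ e0 ∉ (D.w p).edges) ∧ D0 * D.L < D.sg (D.x p) ∧
        deg D.G (D.hub p) ≤ M * (D.sg (D.x p) + D.L)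
        then (D.r : ℝ) / deg D.G (D.hub p) else 0)) +
      (∑ p : P, (if p ∈ Bq then 1 / (Kh : ℝ) else 0)) +
      (∑ p : P, (if D.sg (D.x p) ≤ D0 * D.L then 1 / (Kh : ℝ) else 0)) +
      ∑ p : P, (if p ∈ S.Bd then 0 else (D.r / M : ℝ) * (1 / ((D.sg (D.x p) : ℝ) + D.L))) := by
    rw [← Finset.sum_add_distrib, ← Finset.sum_add_distrib, ← Finset.sum_add_distrib]
    refine Finset.sum_le_sum fun p _ => ?_
    have h1 := hom _ (hD.hub_U p)
    have hk' : 0 ≤ 1 / (Kh : ℝ) := by positivity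
    have hsL : (0 : ℝ) < (D.sg (D.x p) : ℝ) + D.L := by positivity
    have h0 : 0 ≤ (D.r / M : ℝ) * (1 / ((D.sg (D.x p) : ℝ) + D.L)) := by positivity
    by_cases c1 : p ∈ Bq
    · have h2 : 0 ≤ (if (p ∉ S.Bd ∧ e0 ∉ (D.w p).edges) ∧ D0 * D.L < D.sg (D.x p) ∧
          deg D.G (D.hub p) ≤ M * (D.sg (D.x p) + D.L)
          then (D.r : ℝ) / deg D.G (D.hub p) else 0) := by
        split_ifs
        · positivity
        · exact le_rfl
      have h3 : 0 ≤ (if p ∈ S.Bd then 0 else (D.r / M : ℝ) *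
          (1 / ((D.sg (D.x p) : ℝ) + D.L))) := by
        split_ifs
        · exact le_rfl
        · exact h0
      have h4 : 0 ≤ (if D.sg (D.x p) ≤ D0 * D.L then 1 / (Kh : ℝ) else 0) := by
        split_ifs
        · exact hk'
        · exact le_rfl
      rw [if_pos c1]
      linarith
    · have c1a : p ∉ S.Bd := fun h => c1 ((hBqm p).2 (Or.inl h))
      have c1b : e0 ∉ (D.w p).edges := fun h => c1 ((hBqm p).2 (Or.inr (by rw [hBp]; exact h)))
      by_cases c2 : D.sg (D.x p) ≤ D0 * D.L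
      · simp only [c1, c1a, c1b, c2, not_lt.2 c2, false_and, and_false, if_false, if_true]
        linarith
      · have c2' : D0 * D.L < D.sg (D.x p) := not_le.1 c2
        by_cases c3 : deg D.G (D.hub p) ≤ M * (D.sg (D.x p) + D.L)
        · simp only [c1, c1a, c1b, c2, c2', c3, not_false_eq_true, and_self, if_false, if_true]
          linarith
        · simp only [c1, c1a, c2, c3, and_false, if_false]
          have c3' := not_le.1 c3
          have h6 : (M : ℝ) * ((D.sg (D.x p) : ℝ) + D.L) ≤ deg D.G (D.hub p) := by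
            exact_mod_cast c3'.le
          have h7 : (D.r : ℝ) / deg D.G (D.hub p) ≤
              (D.r : ℝ) / (M * ((D.sg (D.x p) : ℝ) + D.L)) :=
            div_le_div_of_nonneg_left (by positivity) (by positivity) h6
          have h8 : (D.r / M : ℝ) * (1 / ((D.sg (D.x p) : ℝ) + D.L)) =
              (D.r : ℝ) / (M * ((D.sg (D.x p) : ℝ) + D.L)) := by
            field_simp
          rw [h8]
          linarith
  have hs1 : ∑ p : P, (if p ∈ Bq then 1 / (Kh : ℝ) else 0) ≤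
      ((S.Bd.ncard : ℝ) + 1) / Kh := by
    rw [← Finset.sum_filter, Finset.sum_const, nsmul_eq_mul]
    have h1 : (Finset.univ.filter fun p => p ∈ Bq).card = Bq.ncard := by
      rw [← Set.ncard_coe_finset]
      congr 1
      ext p
      simp
    have h2 : Bq.ncard ≤ S.Bd.ncard + 1 := by
      have := (Set.ncard_union_le S.Bd Bp)
      rw [hBq]
      omega
    rw [h1, mul_one_div]
    apply div_le_div_of_nonneg_right _ hk0.le
    exact_mod_cast h2
  have hs2 : ∑ p : P, (if D.sg (D.x p) ≤ D0 * D.L then 1 / (Kh : ℝ) else 0) ≤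
      ((A2 : ℝ) * (A4 * ((Nat.log 2 Kh : ℝ) + 1) + 1) * D.L * D.U.ncard) / Kh := by
    rw [← Finset.sum_filter, Finset.sum_const, nsmul_eq_mul]
    have h1 : (Finset.univ.filter fun p => D.sg (D.x p) ≤ D0 * D.L).card =
        {p | D.sg (D.x p) ≤ D0 * D.L}.ncard := by
      rw [← Set.ncard_coe_finset]
      congr 1
      ext p
      simp
    rw [h1, mul_one_div]
    apply div_le_div_of_nonneg_right _ hk0.le
    have h2 : ({p | D.sg (D.x p) ≤ D0 * D.L}.ncard : ℝ) ≤ A2 * ((D0 : ℝ) + 1) * D.L * D.U.ncard := by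
      exact_mod_cast hnear
    have h3 : (D0 : ℝ) = A4 * ((Nat.log 2 Kh : ℝ) + 1) := by
      rw [hD0]
      push_cast
      ring
    rw [h3] at h2
    exact h2
  have hs3 : ∑ p : P, (if p ∈ S.Bd then 0 else (D.r / M : ℝ) *
      (1 / ((D.sg (D.x p) : ℝ) + D.L))) = (D.r / (16 * ((a1 : ℝ) + 1) * (Kh + 1))) * T := by
    rw [hTd, Finset.mul_sum, hM]
    refine Finset.sum_congr rfl fun p _ => ?_
    push_cast
    split_ifs <;> simp
  have hs4 : ∑ q : Q, ((D.r : ℝ) / deg D.G (D.ha q) + (D.r : ℝ) / deg D.G (D.hb q)) ≤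
      (A3 : ℝ) * D.L * D.U.ncard * (2 / Kh) := by
    have h1 : ∀ q ∈ (Finset.univ : Finset Q), ((D.r : ℝ) / deg D.G (D.ha q) +
        (D.r : ℝ) / deg D.G (D.hb q)) ≤ 2 / Kh := by
      intro q _
      have h2 := hom _ (hD.ha_U q)
      have h3 := hom _ (hD.hb_U q)
      have : 2 / (Kh : ℝ) = 1 / (Kh : ℝ) + 1 / (Kh : ℝ) := by ring
      linarith
    refine (Finset.sum_le_sum h1).trans ?_
    rw [Finset.sum_const, nsmul_eq_mul, Finset.card_univ, ← Nat.card_eq_fintype_card]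
    apply mul_le_mul_of_nonneg_right _ (by positivity)
    exact_mod_cast hQ
  have hT0 : 0 ≤ T := by
    rw [hTd]
    apply Finset.sum_nonneg
    intro p _
    split_ifs <;> positivity
  have hr0 : (1000 : ℝ) ≤ D.r := by
    have : 1000 ≤ D.r := by omega
    exact_mod_cast this
  have hu : (1 : ℝ) ≤ D.U.ncard := by
    have : 1 ≤ D.U.ncard := (Set.ncard_pos (Set.toFinite _)).2 hU
    exact_mod_cast this
  have hfin := numeric a1 A2 A3 A4 C0 Kh D.r D.U.ncard D.L S.Z.ncard S.Bd.ncard T (Nat.log 2 Kh) B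
    (by positivity) (by positivity) (by positivity) (by positivity) (by positivity) hk1 hr0 hu
    (by positivity) (by exact_mod_cast hL) (by positivity) (by positivity)
    (by exact_mod_cast S.bd_count) hT0 (by push_cast at hT'; exact hT')
    (by
      rw [hM2] at hZ
      exact_mod_cast hZ) (by positivity) (by rw [hB]; push_cast; ring)
    (by exact_mod_cast hKh2) (by exact_mod_cast hKh3)
  rw [hs3] at hsplit
  linarith

end Pool.Agent.Helper93.HH
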