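import Pool.Agent.Helper93.HH.FDefs

/-!
# HH: facts about the cells, classes of masses
-/

open Set
open Pool.Agent.Helper83.OP
open Pool.Agent.Helper43.HH

namespace Pool.Agent.Helper93.HH

open HD

section Cel

variable {V P Q : Type} {D : HD V P Q} {C : Set V} {ra : V → ℕ} (E : Cel D C ra)

theorem Cel.iter_ctr (v : V) : ∀ k, k ≤ E.dep v → E.ctr (E.par^[k] v) = E.ctr v := by
  intro k
  induction k with
  | zero => intro _; rfl
  | succ k ih =>
    intro hk
    have h1 := ih (by omega)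
    have h2 := iter_dep E.par_dep v k (by omega)
    rw [Function.iterate_succ_apply', E.par_ctr _ (by omega), h1]

theorem Cel.iter_top (v : V) : E.par^[E.dep v] v = E.ctr v := by
  have h1 := E.iter_ctr v _ le_rfl
  have h2 := iter_dep E.par_dep v _ le_rfl
  have h3 := (E.dep_zero (E.par^[E.dep v] v)).1 (by omega)
  rw [← h3, h1]

theorem Cel.dep_ctr (v : V) : E.dep (E.ctr v) = 0 := (E.dep_zero _).2 (E.ctr_ctr v)

theorem Cel.anc_root (v : V) : Anc E.par E.dep (E.ctr v) v := by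
  refine ⟨by rw [E.dep_ctr]; exact Nat.zero_le _, ?_⟩
  rw [E.dep_ctr, Nat.sub_zero]
  exact E.iter_top v

theorem Cel.anc_ctr {u v : V} (h : Anc E.par E.dep u v) : E.ctr u = E.ctr v := by
  obtain ⟨h1, h2⟩ := h
  rw [← h2]
  exact E.iter_ctr v _ (Nat.sub_le _ _)

theorem Cel.anc_sc {u v : V} (h : Anc E.par E.dep u v) : E.sc u ≤ E.sc v := by
  have h1 := E.anc_ctr h
  have h2 := h.1
  unfold Cel.sc
  rw [h1]
  omega

theorem Cel.child_adj {z v : V} (h0 : E.dep z ≠ 0) (h : E.par z = v) : D.N.Adj v z := by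
  rw [← h]
  exact (E.par_adj z h0).symm

end Cel

/-! ### geometric series -/

theorem geo_sum_le (Ks : Finset ℕ) (g : ℝ) (hg : 0 ≤ g)
    (h : ∀ k ∈ Ks, (1 / 2 : ℝ) ^ (k + 1) ≤ g) : ∑ k ∈ Ks, (1 / 2 : ℝ) ^ (k + 1) ≤ 2 * g := by
  rcases Ks.eq_empty_or_nonempty with rfl | hne
  · simpa using hg
  · obtain ⟨k0, hk0, hmin⟩ := Finset.exists_min_image Ks (fun k => k) hne
    have h1 : ∀ n : ℕ, ∑ k ∈ Finset.range n, (1 / 2 : ℝ) ^ (k + 1) = 1 - (1 / 2) ^ n := by
      intro n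
      induction n with
      | zero => simp
      | succ n ih =>
        rw [Finset.sum_range_succ, ih, pow_succ]
        ring
    obtain ⟨M, hM⟩ : ∃ M, ∀ k ∈ Ks, k < k0 + M := by
      obtain ⟨k1, _, hmax⟩ := Finset.exists_max_image Ks (fun k => k) hne
      exact ⟨k1 + 1, fun k hk => by have : k ≤ k1 := hmax k hk; omega⟩
    have h2 : ∑ k ∈ Ks, (1 / 2 : ℝ) ^ (k + 1) ≤
        ∑ k ∈ (Finset.range M).image (fun j => k0 + j), (1 / 2 : ℝ) ^ (k + 1) := by
      refine Finset.sum_le_sum_of_subset_of_nonneg ?_ (fun _ _ _ => by positivity)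
      intro k hk
      rw [Finset.mem_image]
      have a1 : k0 ≤ k := hmin k hk
      have a2 := hM k hk
      exact ⟨k - k0, Finset.mem_range.2 (by omega), by omega⟩
    rw [Finset.sum_image (fun a _ b _ h => by simpa using h)] at h2
    have h3 : ∑ j ∈ Finset.range M, (1 / 2 : ℝ) ^ (k0 + j + 1) =
        (1 / 2) ^ k0 * (1 - (1 / 2) ^ M) := by
      rw [← h1 M, Finset.mul_sum]
      refine Finset.sum_congr rfl fun j _ => ?_
      rw [← pow_add]
      congr 1
    rw [h3] at h2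
    have h4 : (1 / 2 : ℝ) ^ k0 * (1 - (1 / 2) ^ M) ≤ (1 / 2) ^ k0 := by
      have : (0 : ℝ) ≤ (1 / 2) ^ M := by positivity
      have : (0 : ℝ) ≤ (1 / 2) ^ k0 := by positivity
      nlinarith
    have h5 := h k0 hk0
    rw [pow_succ] at h5
    linarith

/-- the class of a mass -/
theorem exists_cls {x : ℝ} (h0 : 0 < x) (h1 : x ≤ 1) :
    ∃ k : ℕ, (1 / 2 : ℝ) ^ (k + 1) < x ∧ x ≤ (1 / 2) ^ k :=
  exists_nat_pow_near_of_lt_one h0 h1 (by norm_num) (by norm_num)

/-! ### the number of blocks at a vertex -/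

section Count

variable {V P Q : Type} [Fintype V] {D : HD V P Q} {C : Set V} {ra : V → ℕ} (E : Cel D C ra)

open Classical in
/-- Blocks of sources in the cell of `v`, of which `v` is between the top and a member. -/
theorem blocks_at {I : Type} (loc : I → V) (B : Finset (Finset I))
    (hB1 : ∀ β ∈ B, ∀ β' ∈ B, ∀ i, i ∈ β → i ∈ β' → β = β')
    (hB2 : ∀ u, (B.filter fun β => Uses E.par E.dep loc u β).card ≤ 2) (top : Finset I → V)
    (htop : ∀ β ∈ B, (∀ i ∈ β, Anc E.par E.dep (top β) (loc i)) ∧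
      ∀ u, E.dep (top β) < E.dep u → ∀ i ∈ β, Anc E.par E.dep u (loc i) →
        Uses E.par E.dep loc u β) (v : V)
    (hc : {i | (∃ β ∈ B, i ∈ β) ∧ loc i = v}.ncard ≤
      2 * {u | D.N.Adj u v ∧ E.ctr u ≠ E.ctr v}.ncard)
    (hfin : {i | (∃ β ∈ B, i ∈ β) ∧ loc i = v}.Finite) :
    (B.filter fun β => ∃ i ∈ β, Anc E.par E.dep (top β) v ∧ Anc E.par E.dep v (loc i)).card ≤
      2 + 2 * deg D.N v := by
  obtain ⟨ch, hch⟩ : ∃ ch : Finset V, ∀ z, z ∈ ch ↔ E.dep z ≠ 0 ∧ E.par z = v :=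
    ⟨Finset.univ.filter fun z => E.dep z ≠ 0 ∧ E.par z = v, fun z => by simp⟩
  obtain ⟨A, hA⟩ : ∃ A : Finset (Finset I), ∀ β, β ∈ A ↔ β ∈ B ∧ ∃ i ∈ β, loc i = v :=
    ⟨B.filter fun β => ∃ i ∈ β, loc i = v, fun β => by simp⟩
  have hsub : (B.filter fun β => ∃ i ∈ β, Anc E.par E.dep (top β) v ∧
      Anc E.par E.dep v (loc i)) ⊆ (B.filter fun β => Uses E.par E.dep loc v β) ∪
      (A ∪ ch.biUnion fun z => B.filter fun β => Uses E.par E.dep loc z β) := by
    intro β hβ
    obtain ⟨hβB, i, hi, h1, h2⟩ := Finset.mem_filter.1 hβ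
    obtain ⟨ht1, ht2⟩ := htop β hβB
    rw [Finset.mem_union, Finset.mem_union]
    by_cases hd : E.dep (top β) < E.dep v
    · left
      exact Finset.mem_filter.2 ⟨hβB, ht2 v hd i hi h2⟩
    · right
      have htv : top β = v := h1.eq (le_antisymm h1.1 (not_lt.1 hd))
      by_cases hw : loc i = v
      · left
        exact (hA β).2 ⟨hβB, i, hi, hw⟩
      · right
        obtain ⟨z, hz0, hz1, hz2⟩ := Anc.child E.par_dep h2 (Ne.symm hw)
        rw [Finset.mem_biUnion]
        refine ⟨z, (hch z).2 ⟨hz0, hz1⟩, Finset.mem_filter.2 ⟨hβB, ht2 z ?_ i hi hz2⟩⟩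
        have := E.par_dep z hz0
        rw [hz1] at this
        rw [htv]
        omega
  have hAc : A.card ≤ {i | (∃ β ∈ B, i ∈ β) ∧ loc i = v}.ncard := by
    have hex : ∀ β : A, ∃ i ∈ (β : Finset I), loc i = v := fun β => ((hA β).1 β.2).2
    choose f hf1 hf2 using hex
    rw [← Set.ncard_coe_finset, ← Nat.card_coe_set_eq]
    refine le_trans (le_of_eq ?_) (Set.ncard_le_ncard (s := Set.range f) ?_ hfin)
    · rw [← Set.image_univ, Set.InjOn.ncard_image, Set.ncard_univ]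
      · rfl
      · intro β _ β' _ h
        apply Subtype.ext
        exact hB1 _ ((hA β).1 β.2).1 _ ((hA β').1 β'.2).1 (f β) (hf1 β) (h ▸ hf1 β')
    · rintro _ ⟨β, rfl⟩
      exact ⟨⟨β, ((hA β).1 β.2).1, hf1 β⟩, hf2 β⟩
  have hchc : (ch.biUnion fun z => B.filter fun β => Uses E.par E.dep loc z β).card ≤
      ch.card * 2 := Finset.card_biUnion_le_card_mul _ _ _ fun z _ => hB2 z
  have hdeg : ch.card + {u | D.N.Adj u v ∧ E.ctr u ≠ E.ctr v}.ncard ≤ deg D.N v := by
    unfold deg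
    rw [← Set.ncard_coe_finset, ← Set.ncard_union_eq _ (Finset.finite_toSet _) (Set.toFinite _)]
    · refine Set.ncard_le_ncard ?_ (Set.toFinite _)
      rintro z (hz | hz)
      · obtain ⟨h1, h2⟩ := (hch z).1 (Finset.mem_coe.1 hz)
        exact E.child_adj h1 h2
      · exact hz.1.symm
    · rw [Set.disjoint_left]
      intro z hz hz'
      obtain ⟨h1, h2⟩ := (hch z).1 (Finset.mem_coe.1 hz)
      apply hz'.2
      rw [← h2, E.par_ctr z h1]
  have h1 := Finset.card_le_card hsub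
  have h2 := Finset.card_union_le (B.filter fun β => Uses E.par E.dep loc v β)
    (A ∪ ch.biUnion fun z => B.filter fun β => Uses E.par E.dep loc z β)
  have h3 := Finset.card_union_le A (ch.biUnion fun z => B.filter fun β => Uses E.par E.dep loc z β)
  have h4 := hB2 v
  omega

end Count

end Pool.Agent.Helper93.HH
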