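import Pool.Agent.Helper93.HH.FA

/-!
# HH: sources and their masses
-/

open Set
open Pool.Agent.Helper83.OP
open Pool.Agent.Helper43.HH

namespace Pool.Agent.Helper93.HH

open HD

variable {V P Q : Type} [Fintype V] [Fintype P] {D : HD V P Q} {K : ℕ}

open Classical in
/-- the flows of the isolated pins -/
structure Fl (S : Sys D K) (e0 : Sym2 V) (D0 M : ℕ) where
  F : P → V → ℝ
  m : P → V → V → ℝ
  F0 : ∀ p v, 0 ≤ F p v
  Fd : ∀ p v, F p v ≤ 8 / 2 ^ (S.E.dep v / D.L)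
  m0 : ∀ p u w, 0 ≤ m p u w
  mAl : ∀ p u w, m p u w ≠ 0 → (Iso S D0 M p ∧ e0 ∉ (D.w p).edges) ∧ Al S p u w
  m1 : ∀ p, Iso S D0 M p → e0 ∉ (D.w p).edges → ∑ u, ∑ w, m p u w = 1
  m1' : ∀ p, ∑ u, ∑ w, m p u w ≤ 1
  mF : ∀ p v, S.E.ctr v = D.x p →
    ∑ u, ∑ w, (if Anc S.E.par S.E.dep v u then m p u w else 0) ≤ F p v

variable {S : Sys D K} {e0 : Sym2 V} {D0 M : ℕ} (Φ : Fl S e0 D0 M)

/-- the mass of a source -/
noncomputable def Fl.ms (s : P × V × V) : ℝ :=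
  (D.r : ℝ) / deg D.G (D.hub s.1) * Φ.m s.1 s.2.1 s.2.2

open Classical in
/-- the sources: pairs of a pin and an exit of its cell, with positive mass and not dropped -/
noncomputable def Fl.Sr : Finset (P × V × V) :=
  Finset.univ.filter fun s => Φ.m s.1 s.2.1 s.2.2 ≠ 0 ∧ ¬ Drop S s.2.1 s.2.2

theorem Fl.mem_Sr (s : P × V × V) :
    s ∈ Φ.Sr ↔ Φ.m s.1 s.2.1 s.2.2 ≠ 0 ∧ ¬ Drop S s.2.1 s.2.2 := by
  classical
  unfold Fl.Sr
  simp

theorem Fl.ms0 (s : P × V × V) : 0 ≤ Φ.ms s :=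
  mul_nonneg (by positivity) (Φ.m0 _ _ _)

section

variable (hD : D.Ok) (hKh : 1 ≤ D.Kh)

include hD hKh

theorem om_le (p : P) : (D.r : ℝ) / deg D.G (D.hub p) ≤ 1 / D.Kh := by
  have h3 := hD.hub_deg _ (hD.hub_U p)
  have h4 : (0 : ℝ) < deg D.G (D.hub p) := by
    have : 0 < deg D.G (D.hub p) := by omega
    exact_mod_cast this
  have h6 : (0 : ℝ) < D.Kh := by exact_mod_cast hKh
  rw [div_le_div_iff₀ h4 h6]
  have h5 : ((D.Kh * D.r : ℕ) : ℝ) ≤ deg D.G (D.hub p) := by exact_mod_cast h3.le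
  push_cast at h5
  linarith

theorem om_pos (p : P) : 0 < (D.r : ℝ) / deg D.G (D.hub p) := by
  have h3 := hD.hub_deg _ (hD.hub_U p)
  have h4 : (0 : ℝ) < deg D.G (D.hub p) := by
    have : 0 < deg D.G (D.hub p) := by omega
    exact_mod_cast this
  have h5 : (0 : ℝ) < D.r := by
    have := hD.r_pos
    have : 0 < D.r := by omega
    exact_mod_cast this
  positivity

theorem Fl.ms_pos {s : P × V × V} (hs : s ∈ Φ.Sr) : 0 < Φ.ms s := by
  have h1 := ((Φ.mem_Sr s).1 hs).1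
  exact mul_pos (om_pos hD hKh _) (lt_of_le_of_ne (Φ.m0 _ _ _) (Ne.symm h1))

theorem Fl.m_le_F (p : P) {u w : V} (h : Φ.m p u w ≠ 0) : Φ.m p u w ≤ Φ.F p u := by
  classical
  obtain ⟨_, ⟨⟨h1, _, _⟩, _, _⟩⟩ := Φ.mAl p u w h
  refine le_trans ?_ (Φ.mF p u h1)
  have e1 : Φ.m p u w = if Anc S.E.par S.E.dep u u then Φ.m p u w else 0 := by
    rw [if_pos (Anc.refl u)]
  rw [e1]
  refine le_trans (Finset.single_le_sum (f := fun w => if Anc S.E.par S.E.dep u u then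
    Φ.m p u w else 0) (fun i _ => ?_) (Finset.mem_univ w))
    (Finset.single_le_sum (f := fun u' => ∑ w, if Anc S.E.par S.E.dep u u' then
      Φ.m p u' w else 0) (fun i _ => Finset.sum_nonneg fun j _ => ?_) (Finset.mem_univ u))
  · split_ifs
    · exact Φ.m0 _ _ _
    · exact le_rfl
  · split_ifs
    · exact Φ.m0 _ _ _
    · exact le_rfl

theorem Fl.ms_le {s : P × V × V} (hs : s ∈ Φ.Sr) :
    Φ.ms s ≤ 8 / D.Kh * (1 / 2) ^ (S.E.dep s.2.1 / D.L) := by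
  have h1 := ((Φ.mem_Sr s).1 hs).1
  have h2 := (Φ.m_le_F hD hKh s.1 h1).trans (Φ.Fd s.1 s.2.1)
  have h3 := om_le hD hKh s.1
  have h4 : (0 : ℝ) ≤ (D.r : ℝ) / deg D.G (D.hub s.1) := by positivity
  calc Φ.ms s ≤ 1 / D.Kh * (8 / 2 ^ (S.E.dep s.2.1 / D.L)) :=
        mul_le_mul h3 h2 (Φ.m0 _ _ _) (by positivity)
    _ = _ := by
      rw [one_div_pow]
      ring

theorem Fl.ms_le_one {s : P × V × V} : Φ.ms s ≤ 1 := by
  have h2 : Φ.m s.1 s.2.1 s.2.2 ≤ 1 := by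
    refine le_trans ?_ (Φ.m1' s.1)
    exact le_trans (Finset.single_le_sum (f := fun w => Φ.m s.1 s.2.1 w)
      (fun i _ => Φ.m0 _ _ _) (Finset.mem_univ s.2.2))
      (Finset.single_le_sum (f := fun u => ∑ w, Φ.m s.1 u w)
        (fun i _ => Finset.sum_nonneg fun j _ => Φ.m0 _ _ _) (Finset.mem_univ s.2.1))
  have h3 := om_le hD hKh s.1
  have h6 : (1 : ℝ) ≤ D.Kh := by exact_mod_cast hKh
  have h7 : 1 / (D.Kh : ℝ) ≤ 1 := by
    rw [div_le_one (by linarith)]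
    exact h6
  have h4 : (0 : ℝ) ≤ (D.r : ℝ) / deg D.G (D.hub s.1) := by positivity
  calc Φ.ms s ≤ 1 * 1 := mul_le_mul (h3.trans h7) h2 (Φ.m0 _ _ _) (by norm_num)
    _ = 1 := one_mul 1

open Classical in
/-- the mass of the sources of one pin -/
theorem Fl.pin_sum (p : P) : ∑ s ∈ Φ.Sr with s.1 = p, Φ.ms s ≤ 1 / D.Kh := by
  have h1 : ∑ s ∈ Φ.Sr with s.1 = p, Φ.ms s ≤ ∑ s : P × V × V, if s.1 = p then Φ.ms s else 0 := by
    rw [← Finset.sum_filter]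
    refine Finset.sum_le_sum_of_subset_of_nonneg ?_ (fun s _ _ => Φ.ms0 s)
    intro s hs
    rw [Finset.mem_filter] at hs ⊢
    exact ⟨Finset.mem_univ _, hs.2⟩
  refine h1.trans ?_
  rw [Fintype.sum_prod_type, Finset.sum_eq_single p]
  · simp only [if_true]
    rw [Fintype.sum_prod_type]
    unfold Fl.ms
    simp only
    have h2 : ∑ u, ∑ w, (D.r : ℝ) / deg D.G (D.hub p) * Φ.m p u w =
        (D.r : ℝ) / deg D.G (D.hub p) * ∑ u, ∑ w, Φ.m p u w := by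
      rw [Finset.mul_sum]
      refine Finset.sum_congr rfl fun u _ => ?_
      rw [Finset.mul_sum]
    rw [h2]
    have h3 := om_le hD hKh p
    have h4 : (0 : ℝ) ≤ (D.r : ℝ) / deg D.G (D.hub p) := by positivity
    calc _ ≤ 1 / (D.Kh : ℝ) * 1 := mul_le_mul h3 (Φ.m1' p)
          (Finset.sum_nonneg fun u _ => Finset.sum_nonneg fun w _ => Φ.m0 _ _ _) (by positivity)
      _ = _ := mul_one _
  · intro q _ hq
    refine Finset.sum_eq_zero fun y _ => ?_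
    simp [hq]
  · intro h
    exact absurd (Finset.mem_univ p) h

/-- at most two isolated pins at a vertex -/
theorem iso_two (v : V) : {p | Iso S D0 M p ∧ D.x p = v}.ncard ≤ 2 := by
  by_cases h : ∃ p, Iso S D0 M p ∧ D.x p = v
  · obtain ⟨p, hp, hv⟩ := h
    have h1 : 0 < D.sg v := by
      rw [← hv]
      exact lt_of_le_of_lt (Nat.zero_le _) hp.2.1
    refine le_trans (Set.ncard_le_ncard ?_ (Set.toFinite _)) (D.sg_min h1)
    rintro q ⟨_, hq⟩
    show Nr D.N 0 v (D.x q)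
    rw [hq]
    exact Nr.refl _ _ _
  · have : {p | Iso S D0 M p ∧ D.x p = v} = ∅ := by
      rw [Set.eq_empty_iff_forall_notMem]
      exact fun p hp => h ⟨p, hp⟩
    rw [this]
    simp

open Classical in
/-- the mass of the sources whose own path contains `v` -/
theorem Fl.own_sum (v : V) : ∑ s ∈ Φ.Sr with Anc S.E.par S.E.dep v s.2.1, Φ.ms s ≤
    16 / D.Kh * (1 / 2) ^ (S.E.dep v / D.L) := by
  obtain ⟨A, hA⟩ : ∃ A : Finset P, ∀ p, p ∈ A ↔ Iso S D0 M p ∧ D.x p = S.E.ctr v :=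
    ⟨Finset.univ.filter fun p => Iso S D0 M p ∧ D.x p = S.E.ctr v, fun p => by simp⟩
  have hAc : A.card ≤ 2 := by
    rw [← Set.ncard_coe_finset]
    refine le_trans (le_of_eq ?_) (iso_two hD hKh (S := S) (D0 := D0) (M := M) (S.E.ctr v))
    congr 1
    ext p
    exact hA p
  have h1 : ∑ s ∈ Φ.Sr with Anc S.E.par S.E.dep v s.2.1, Φ.ms s ≤
      ∑ p ∈ A, ∑ y : V × V, if Anc S.E.par S.E.dep v y.1 then Φ.ms (p, y) else 0 := by
    have h2 : ∑ p ∈ A, ∑ y : V × V, (if Anc S.E.par S.E.dep v y.1 then Φ.ms (p, y) else 0) =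
        ∑ s ∈ A ×ˢ (Finset.univ : Finset (V × V)),
          if Anc S.E.par S.E.dep v s.2.1 then Φ.ms s else 0 := by
      rw [Finset.sum_product]
    rw [h2, Finset.sum_filter]
    have h3 : ∀ s ∈ Φ.Sr, s ∉ A ×ˢ (Finset.univ : Finset (V × V)) →
        (if Anc S.E.par S.E.dep v s.2.1 then Φ.ms s else 0) = 0 := by
      intro s hs hn
      rw [if_neg]
      intro ha
      apply hn
      rw [Finset.mem_product]
      refine ⟨(hA _).2 ?_, Finset.mem_univ _⟩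
      obtain ⟨⟨k1, _⟩, ⟨k2, _, _⟩, _, _⟩ := Φ.mAl _ _ _ ((Φ.mem_Sr s).1 hs).1
      exact ⟨k1, k2.symm.trans (S.E.anc_ctr ha).symm⟩
    calc _ = ∑ s ∈ Φ.Sr ∩ (A ×ˢ (Finset.univ : Finset (V × V))),
          (if Anc S.E.par S.E.dep v s.2.1 then Φ.ms s else 0) := by
          symm
          apply Finset.sum_subset Finset.inter_subset_left
          intro s hs hn
          exact h3 s hs fun h => hn (Finset.mem_inter.2 ⟨hs, h⟩)
      _ ≤ _ := by
          refine Finset.sum_le_sum_of_subset_of_nonneg Finset.inter_subset_right ?_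
          intro s _ _
          split_ifs
          · exact Φ.ms0 s
          · exact le_rfl
  refine h1.trans ?_
  have h4 : ∀ p ∈ A, ∑ y : V × V, (if Anc S.E.par S.E.dep v y.1 then Φ.ms (p, y) else 0) ≤
      8 / D.Kh * (1 / 2) ^ (S.E.dep v / D.L) := by
    intro p hp
    obtain ⟨_, hx⟩ := (hA p).1 hp
    rw [Fintype.sum_prod_type]
    have h5 : ∑ u, ∑ w, (if Anc S.E.par S.E.dep v u then Φ.ms (p, u, w) else 0) =
        (D.r : ℝ) / deg D.G (D.hub p) *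
          ∑ u, ∑ w, (if Anc S.E.par S.E.dep v u then Φ.m p u w else 0) := by
      rw [Finset.mul_sum]
      refine Finset.sum_congr rfl fun u _ => ?_
      rw [Finset.mul_sum]
      refine Finset.sum_congr rfl fun w _ => ?_
      unfold Fl.ms
      split_ifs <;> simp
    simp only
    rw [h5]
    have h6 := (Φ.mF p v hx.symm).trans (Φ.Fd p v)
    have h3 := om_le hD hKh p
    have h0 : 0 ≤ ∑ u, ∑ w, (if Anc S.E.par S.E.dep v u then Φ.m p u w else 0) := by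
      refine Finset.sum_nonneg fun u _ => Finset.sum_nonneg fun w _ => ?_
      split_ifs
      · exact Φ.m0 _ _ _
      · exact le_rfl
    calc _ ≤ 1 / (D.Kh : ℝ) * (8 / 2 ^ (S.E.dep v / D.L)) := mul_le_mul h3 h6 h0 (by positivity)
      _ = _ := by
        rw [one_div_pow]
        ring
  refine (Finset.sum_le_sum h4).trans ?_
  rw [Finset.sum_const, nsmul_eq_mul]
  have h7 : (A.card : ℝ) ≤ 2 := by exact_mod_cast hAc
  have h8 : (0 : ℝ) ≤ 8 / D.Kh * (1 / 2) ^ (S.E.dep v / D.L) := by positivity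
  calc (A.card : ℝ) * (8 / D.Kh * (1 / 2) ^ (S.E.dep v / D.L)) ≤
        2 * (8 / D.Kh * (1 / 2) ^ (S.E.dep v / D.L)) := mul_le_mul_of_nonneg_right h7 h8
    _ = _ := by ring

/-- the sources entering a cell at `v` -/
theorem Fl.at_count (v : V) : {s | s ∈ Φ.Sr ∧ s.2.2 = v}.ncard ≤
    2 * {u | D.N.Adj u v ∧ S.E.ctr u ≠ S.E.ctr v}.ncard := by
  classical
  have h1 : {s | s ∈ Φ.Sr ∧ s.2.2 = v} ⊆
      ⋃ u ∈ {u | D.N.Adj u v ∧ S.E.ctr u ≠ S.E.ctr v},
        (fun p : P => (p, u, v)) '' {p | Iso S D0 M p ∧ D.x p = S.E.ctr u} := by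
    rintro ⟨p, u, w⟩ ⟨hs, hw⟩
    obtain ⟨⟨k1, _⟩, ⟨k2, k3, k4⟩, _, _⟩ := Φ.mAl _ _ _ ((Φ.mem_Sr _).1 hs).1
    simp only at hw k2 k3 k4 k1
    subst hw
    rw [Set.mem_iUnion₂]
    exact ⟨u, ⟨k4, by rw [k2]; exact fun h => k3 h.symm⟩, p, ⟨k1, k2.symm⟩, rfl⟩
  refine (Set.ncard_le_ncard h1 (Set.toFinite _)).trans ?_
  obtain ⟨B, hB⟩ : ∃ B : Finset V, (B : Set V) = {u | D.N.Adj u v ∧ S.E.ctr u ≠ S.E.ctr v} :=
    ⟨(Set.toFinite _).toFinset, Set.Finite.coe_toFinset _⟩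
  rw [← hB, Set.ncard_coe_finset, mul_comm]
  have h2 : (⋃ u ∈ (B : Set V), (fun p : P => (p, u, v)) ''
      {p | Iso S D0 M p ∧ D.x p = S.E.ctr u}) ⊆
      ((B.biUnion fun u => (Set.toFinite ((fun p : P => (p, u, v)) ''
        {p | Iso S D0 M p ∧ D.x p = S.E.ctr u})).toFinset : Finset (P × V × V)) :
        Set (P × V × V)) := by
    intro s hs
    rw [Set.mem_iUnion₂] at hs
    obtain ⟨u, hu, hs⟩ := hs
    rw [Finset.mem_coe, Finset.mem_biUnion]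
    exact ⟨u, Finset.mem_coe.1 hu, (Set.Finite.mem_toFinset _).2 hs⟩
  refine (Set.ncard_le_ncard h2 (Finset.finite_toSet _)).trans ?_
  rw [Set.ncard_coe_finset]
  refine Finset.card_biUnion_le_card_mul _ _ _ fun u _ => ?_
  rw [← Set.ncard_eq_toFinset_card]
  exact (Set.ncard_image_le (Set.toFinite _)).trans (iso_two hD hKh _)

end

end Pool.Agent.Helper93.HH
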