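import Pool.Agent.Helper93.HH.FB

/-!
# HH: blocks of sources and their loads
-/

open Set
open Pool.Agent.Helper83.OP
open Pool.Agent.Helper43.HH

namespace Pool.Agent.Helper93.HH

open HD

variable {V P Q : Type} [Fintype V] [Fintype P] {D : HD V P Q} {K : ℕ}
  {S : Sys D K} {e0 : Sym2 V} {D0 M : ℕ} (Φ : Fl S e0 D0 M)

open Classical in
/-- the blocks -/
structure Bk where
  cls : P × V × V → ℕ
  km : ℕ
  B : V → ℕ → Finset (Finset (P × V × V))
  top : V → ℕ → Finset (P × V × V) → V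
  hcls : ∀ s ∈ Φ.Sr, (1 / 2 : ℝ) ^ (cls s + 1) < Φ.ms s ∧ Φ.ms s ≤ (1 / 2) ^ cls s
  hkm : ∀ s ∈ Φ.Sr, cls s ≤ km
  sub : ∀ c k, ∀ β ∈ B c k, ∀ s ∈ β, s ∈ Φ.Sr ∧ S.E.ctr s.2.2 = c ∧ cls s = k
  card : ∀ c k, ∀ β ∈ B c k, β.card = 3
  disj : ∀ c k, ∀ β ∈ B c k, ∀ β' ∈ B c k, ∀ i, i ∈ β → i ∈ β' → β = β'
  uses : ∀ c k u, ((B c k).filter fun β => Uses S.E.par S.E.dep (fun s : P × V × V => s.2.2) u β).card ≤ 2
  left : ∀ c k, (Φ.Sr.filter fun s => (S.E.ctr s.2.2 = c ∧ cls s = k) ∧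
    ∀ β ∈ B c k, s ∉ β).card ≤ 2
  topp : ∀ c k, ∀ β ∈ B c k, (∀ i ∈ β, Anc S.E.par S.E.dep (top c k β) i.2.2) ∧
    ∀ u, S.E.dep (top c k β) < S.E.dep u → ∀ i ∈ β, Anc S.E.par S.E.dep u i.2.2 →
      Uses S.E.par S.E.dep (fun s : P × V × V => s.2.2) u β

theorem exists_bk (hD : D.Ok) (hKh : 1 ≤ D.Kh) : Nonempty (Bk Φ) := by
  classical
  have h1 : ∀ s, ∃ k : ℕ, s ∈ Φ.Sr → (1 / 2 : ℝ) ^ (k + 1) < Φ.ms s ∧ Φ.ms s ≤ (1 / 2) ^ k := by
    intro s
    by_cases hs : s ∈ Φ.Sr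
    · obtain ⟨k, hk⟩ := exists_cls (Φ.ms_pos hD hKh hs) (Φ.ms_le_one hD hKh)
      exact ⟨k, fun _ => hk⟩
    · exact ⟨0, fun h => absurd h hs⟩
  choose cls hcls using h1
  have h2 : ∀ (c : V) (k : ℕ), ∃ B : Finset (Finset (P × V × V)),
      (∀ β ∈ B, β ⊆ (Φ.Sr.filter fun s => S.E.ctr s.2.2 = c ∧ cls s = k) ∧ β.card = 3) ∧
      (∀ β ∈ B, ∀ β' ∈ B, ∀ i, i ∈ β → i ∈ β' → β = β') ∧
      ((Φ.Sr.filter fun s => S.E.ctr s.2.2 = c ∧ cls s = k).filter
        fun i => ∀ β ∈ B, i ∉ β).card < 3 ∧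
      ∀ u, (B.filter fun β => Uses S.E.par S.E.dep (fun s : P × V × V => s.2.2) u β).card ≤ 3 - 1 := by
    intro c k
    obtain ⟨B, b1, b2, b3, b4⟩ := blocks (par := S.E.par) (dep := S.E.dep) 3 (by norm_num)
      (fun s : P × V × V => s.2.2) c
      (Φ.Sr.filter fun s => S.E.ctr s.2.2 = c ∧ cls s = k) (by
        intro s hs
        have := (Finset.mem_filter.1 hs).2.1
        rw [← this]
        exact S.E.anc_root _)
    exact ⟨B, b1, b2, by convert b3, fun u => by convert b4 u⟩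
  choose B hB1 hB2 hB3 hB4 using h2
  have h3 : ∀ (c : V) (k : ℕ) (β : Finset (P × V × V)), ∃ m : V, β ∈ B c k →
      (∀ i ∈ β, Anc S.E.par S.E.dep m i.2.2) ∧
      ∀ u, S.E.dep m < S.E.dep u → ∀ i ∈ β, Anc S.E.par S.E.dep u i.2.2 →
        Uses S.E.par S.E.dep (fun s : P × V × V => s.2.2) u β := by
    intro c k β
    by_cases hβ : β ∈ B c k
    · have hc : β.card = 3 := (hB1 c k β hβ).2
      have hne : β.Nonempty := by
        rw [← Finset.card_pos]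
        omega
      obtain ⟨m, hm1, -, hm3⟩ := exists_top (par := S.E.par) (dep := S.E.dep)
        (fun s : P × V × V => s.2.2) c β hne (by
          intro i hi
          have := (Finset.mem_filter.1 ((hB1 c k β hβ).1 hi)).2.1
          rw [← this]
          exact S.E.anc_root _)
      exact ⟨m, fun _ => ⟨hm1, hm3⟩⟩
    · exact ⟨c, fun h => absurd h hβ⟩
  choose top htop using h3
  refine ⟨{ cls := cls, km := Φ.Sr.sup cls, B := B, top := top, hcls := fun s hs => hcls s hs,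
            hkm := fun s hs => Finset.le_sup hs, sub := ?_, card := fun c k β h => (hB1 c k β h).2,
            disj := hB2, uses := hB4, left := ?_, topp := htop }⟩
  · intro c k β hβ s hs
    have := Finset.mem_filter.1 ((hB1 c k β hβ).1 hs)
    exact ⟨this.1, this.2.1, this.2.2⟩
  · intro c k
    have h := hB3 c k
    rw [Finset.filter_filter] at h
    omega

variable {Φ} (Bl : Bk Φ)

open Classical in
/-- the set of all blocks -/
noncomputable def Bk.T0 : Finset (V × ℕ × Finset (P × V × V)) :=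
  (Finset.univ ×ˢ (Finset.range (Bl.km + 1) ×ˢ Finset.univ)).filter
    fun x => x.2.2 ∈ Bl.B x.1 x.2.1

theorem Bk.mem_T0 (x : V × ℕ × Finset (P × V × V)) :
    x ∈ Bl.T0 ↔ x.2.1 ≤ Bl.km ∧ x.2.2 ∈ Bl.B x.1 x.2.1 := by
  classical
  unfold Bk.T0
  rw [Finset.mem_filter, Finset.mem_product, Finset.mem_product, Finset.mem_range]
  simp

/-- the weight of a block -/
noncomputable def bmu (x : V × ℕ × Finset (P × V × V)) : ℝ := (1 / 2) ^ (x.2.1 + 1)

open Classical in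
theorem Bk.blk_sum (R : P × V × V → Prop) :
    ∑ x ∈ Bl.T0 with ∃ s ∈ x.2.2, R s, bmu x ≤ ∑ s ∈ Φ.Sr with R s, Φ.ms s := by
  have h1 : ∀ x ∈ Bl.T0.filter (fun x => ∃ s ∈ x.2.2, R s),
      bmu x ≤ ∑ s ∈ Φ.Sr with R s, if s ∈ x.2.2 then Φ.ms s else 0 := by
    intro x hx
    obtain ⟨hx0, s, hs, hR⟩ := Finset.mem_filter.1 hx
    obtain ⟨_, hxB⟩ := (Bl.mem_T0 x).1 hx0
    obtain ⟨g1, _, g3⟩ := Bl.sub _ _ _ hxB s hs
    have h2 := (Bl.hcls s g1).1
    rw [g3] at h2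
    have h3 : Φ.ms s = if s ∈ x.2.2 then Φ.ms s else 0 := by rw [if_pos hs]
    unfold bmu
    refine h2.le.trans ?_
    rw [h3]
    refine Finset.single_le_sum (f := fun s => if s ∈ x.2.2 then Φ.ms s else 0) ?_
      (Finset.mem_filter.2 ⟨g1, hR⟩)
    intro i _
    show 0 ≤ if i ∈ x.2.2 then Φ.ms i else 0
    split_ifs
    · exact Φ.ms0 i
    · exact le_rfl
  refine (Finset.sum_le_sum h1).trans ?_
  rw [Finset.sum_comm]
  refine Finset.sum_le_sum fun s _ => ?_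
  by_cases hex : ∃ x ∈ Bl.T0.filter (fun x => ∃ s ∈ x.2.2, R s), s ∈ x.2.2
  · obtain ⟨x, hx, hsx⟩ := hex
    rw [Finset.sum_eq_single x]
    · rw [if_pos hsx]
    · intro y hy hne
      rw [if_neg]
      intro hsy
      apply hne
      obtain ⟨_, hxB⟩ := (Bl.mem_T0 x).1 (Finset.mem_filter.1 hx).1
      obtain ⟨_, hyB⟩ := (Bl.mem_T0 y).1 (Finset.mem_filter.1 hy).1
      obtain ⟨_, a2, a3⟩ := Bl.sub _ _ _ hxB s hsx
      obtain ⟨_, b2, b3⟩ := Bl.sub _ _ _ hyB s hsy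
      have e1 : y.1 = x.1 := b2.symm.trans a2
      have e2 : y.2.1 = x.2.1 := b3.symm.trans a3
      rw [e1, e2] at hyB
      have e3 := Bl.disj _ _ _ hyB _ hxB s hsy hsx
      exact Prod.ext e1 (Prod.ext e2 e3)
    · intro h
      exact absurd hx h
  · push Not at hex
    rw [Finset.sum_eq_zero]
    · exact Φ.ms0 s
    · intro x hx
      rw [if_neg (hex x hx)]

end Pool.Agent.Helper93.HH
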