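import Pool.Agent.Helper93.HH.Sys
import Pool.Agent.Helper43.HH.Blocks

/-!
# HH: definitions for the flow of the isolated pins (FL)
-/

open Set
open Pool.Agent.Helper83.OP
open Pool.Agent.Helper43.HH

namespace Pool.Agent.Helper93.HH

open HD

/-- an isolated pin -/
def Iso {V P Q : Type} [Finite V] {D : HD V P Q} {K : ℕ} (S : Sys D K) (D0 M : ℕ) (p : P) : Prop :=
  p ∉ S.Bd ∧ D0 * D.L < D.sg (D.x p) ∧ deg D.G (D.hub p) ≤ M * (D.sg (D.x p) + D.L)

/-- an exit of the cell of `c` -/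
def Exit {V P Q : Type} [Finite V] {D : HD V P Q} {K : ℕ} (S : Sys D K) (c u w : V) : Prop :=
  S.E.ctr u = c ∧ S.E.ctr w ≠ c ∧ D.N.Adj u w

/-- the first vertices of the branches of the cell of `x p` which lead into the cell of the partner -/
def Ex {V P Q : Type} [Finite V] {D : HD V P Q} {K : ℕ} (S : Sys D K) (p : P) : Set V :=
  {z | 4 * D.gp p < D.sg (D.x p) ∧ D.N.Adj (D.x p) z ∧
    ((S.E.ctr z = S.E.ctr (D.x (D.pt p)) ∧ S.E.ctr z ≠ D.x p) ∨
      (S.E.ctr z = D.x p ∧ ∃ u w, Anc S.E.par S.E.dep z u ∧ Exit S (D.x p) u w ∧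
        S.E.ctr w = S.E.ctr (D.x (D.pt p))))}

/-- the exit `(u, w)` of the cell of `x p` does not leave through an excluded branch -/
def Al {V P Q : Type} [Finite V] {D : HD V P Q} {K : ℕ} (S : Sys D K) (p : P) (u w : V) : Prop :=
  Exit S (D.x p) u w ∧ w ∉ Ex S p ∧ ∀ z ∈ Ex S p, ¬ Anc S.E.par S.E.dep z u

/-- the exit is dropped: it leads into a thick cell and is near -/
def Drop {V P Q : Type} [Finite V] {D : HD V P Q} {K : ℕ} (S : Sys D K) (u w : V) : Prop :=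
  S.E.ctr w ∈ S.Z ∧ S.E.dep u < 10 * D.Rv (S.E.ctr w)

end Pool.Agent.Helper93.HH
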