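import Pool.Agent.Helper93.HH.FC

/-!
# HH: bounds for the loads
-/

open Set
open Pool.Agent.Helper83.OP
open Pool.Agent.Helper43.HH

namespace Pool.Agent.Helper93.HH

open HD

variable {V P Q : Type} [Fintype V] {D : HD V P Q} {K : ℕ}

/-- the bound for the masses of the sources below `v` -/
noncomputable def gm (S : Sys D K) (v : V) : ℝ :=
  8 / (D.Kh : ℝ) ^ 3 * (1 / 2) ^ ((S.E.sc v).natAbs / (2 * D.L))

open Classical in
/-- the bound for the load of a vertex -/
noncomputable def gV (S : Sys D K) (v : V) : ℝ :=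
  if v ∈ D.VN then 16 / D.Kh * (1 / 2) ^ (S.E.dep v / D.L) + 8 * deg D.N v * gm S v
  else 1 / D.Kh

theorem gm_nonneg (S : Sys D K) (v : V) : 0 ≤ gm S v := by
  unfold gm
  positivity

theorem gV_nonneg (S : Sys D K) (v : V) : 0 ≤ gV S v := by
  unfold gV
  have := gm_nonneg S v
  split_ifs <;> positivity

/-- `v` is on the leg of the source `s` of a block with top `t` -/
def OnLeg (S : Sys D K) (t : V) (s : P × V × V) (v : V) : Prop :=
  (Anc S.E.par S.E.dep t v ∧ Anc S.E.par S.E.dep v s.2.2) ∨ Anc S.E.par S.E.dep v s.2.1 ∨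
    (v ∈ (D.w s.1).support ∧ v ≠ D.x s.1)

end Pool.Agent.Helper93.HH
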