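import Pool.Agent.Helper93.HH.FG
import Pool.Agent.Helper66.HH.Exits
import Pool.Agent.Helper51.HH.Tree

/-!
# HH: bounds for the masses and the loads
-/

open Set
open Pool.Agent.Helper83.OP
open Pool.Agent.Helper43.HH

namespace Pool.Agent.Helper93.HH

open HD

section Num

theorem kh_pow {Kh : ℕ} : (Kh : ℝ) ^ 2 ≤ 2 ^ (2 * (Nat.log 2 Kh + 1)) := by
  have h1 : Kh < 2 ^ (Nat.log 2 Kh + 1) := Nat.lt_pow_succ_log_self (by norm_num) Kh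
  have h2 : (Kh : ℝ) ≤ 2 ^ (Nat.log 2 Kh + 1) := by exact_mod_cast h1.le
  calc (Kh : ℝ) ^ 2 ≤ (2 ^ (Nat.log 2 Kh + 1)) ^ 2 := pow_le_pow_left₀ (by positivity) h2 2
    _ = _ := by rw [← pow_mul, mul_comm]

/-- decay -/
theorem decay {Kh a b : ℕ} (hKh : 1 ≤ Kh) (h : b + 2 * (Nat.log 2 Kh + 1) ≤ a) :
    (1 / 2 : ℝ) ^ a ≤ 1 / (Kh : ℝ) ^ 2 * (1 / 2) ^ b := by
  have h1 := kh_pow (Kh := Kh)
  have h2 : (0 : ℝ) < Kh := by exact_mod_cast hKh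
  have h3 : (1 / 2 : ℝ) ^ a ≤ (1 / 2) ^ (b + 2 * (Nat.log 2 Kh + 1)) :=
    pow_le_pow_of_le_one (by norm_num) (by norm_num) h
  refine h3.trans ?_
  rw [pow_add, mul_comm]
  apply mul_le_mul_of_nonneg_right _ (by positivity)
  rw [one_div_pow]
  exact one_div_le_one_div_of_le (by positivity) h1

theorem succ_le_pow {a n : ℕ} (h : a + 2 ≤ 2 * n) : (a : ℝ) + 1 ≤ 2 ^ n := by
  have h1 : ∀ n : ℕ, 1 ≤ n → 2 * n ≤ 2 ^ n := by
    intro n hn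
    induction n, hn using Nat.le_induction with
    | base => norm_num
    | succ n hn ih =>
      rw [pow_succ]
      have : 2 ≤ 2 ^ n := by
        calc 2 = 2 ^ 1 := rfl
          _ ≤ 2 ^ n := Nat.pow_le_pow_right (by norm_num) hn
      omega
  have h2 := h1 n (by omega)
  have h3 : a + 1 ≤ 2 ^ n := by omega
  exact_mod_cast h3

/-- decay with a linear factor -/
theorem decay' {Kh a : ℕ} (hKh : 1 ≤ Kh) (h : 4 * Nat.log 2 Kh + 6 ≤ a) :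
    (1 / 2 : ℝ) ^ a * (a + 1) ≤ 1 / (Kh : ℝ) ^ 2 := by
  obtain ⟨n, hn⟩ : ∃ n, n = a - 2 * (Nat.log 2 Kh + 1) := ⟨_, rfl⟩
  have h1 := decay (Kh := Kh) (a := a) (b := n) hKh (by omega)
  have h2 := succ_le_pow (a := a) (n := n) (by omega)
  have h3 : (0 : ℝ) ≤ (a : ℝ) + 1 := by positivity
  calc (1 / 2 : ℝ) ^ a * (a + 1) ≤ (1 / (Kh : ℝ) ^ 2 * (1 / 2) ^ n) * 2 ^ n :=
        mul_le_mul h1 h2 h3 (by positivity)
    _ = 1 / (Kh : ℝ) ^ 2 * ((1 / 2) ^ n * 2 ^ n) := by ring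
    _ = 1 / (Kh : ℝ) ^ 2 := by
      rw [← mul_pow]
      norm_num

end Num

variable {V P Q : Type} [Fintype V] [Fintype P] [Finite Q] {D : HD V P Q} {K : ℕ}
  {S : Sys D K} {e0 : Sym2 V} {D0 M : ℕ} (Φ : Fl S e0 D0 M)

theorem Fl.src {s : P × V × V} (hs : s ∈ Φ.Sr) : (Iso S D0 M s.1 ∧ e0 ∉ (D.w s.1).edges) ∧
    Al S s.1 s.2.1 s.2.2 ∧ ¬ Drop S s.2.1 s.2.2 :=
  ⟨(Φ.mAl _ _ _ ((Φ.mem_Sr s).1 hs).1).1, (Φ.mAl _ _ _ ((Φ.mem_Sr s).1 hs).1).2,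
    ((Φ.mem_Sr s).1 hs).2⟩

theorem Fl.src_VN {s : P × V × V} (hs : s ∈ Φ.Sr) : s.2.1 ∈ D.VN ∧ s.2.2 ∈ D.VN := by
  obtain ⟨_, ⟨⟨_, _, h⟩, _, _⟩, _⟩ := Φ.src hs
  exact ⟨VN_of_adj h, VN_of_adj h.symm⟩

theorem Lpos (hD : D.Ok) : 0 < D.L := by
  have h1 := hD.r_pos
  have h2 := hD.r_le
  omega

theorem dep_lt (hD : D.Ok) (u : V) : S.E.dep u + 1 ≤ (S.E.dep u / D.L + 1) * D.L := by
  have h1 := Lpos hD
  have h2 := Nat.div_add_mod (S.E.dep u) D.L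
  have h3 := Nat.mod_lt (S.E.dep u) h1
  have h4 : (S.E.dep u / D.L + 1) * D.L = D.L * (S.E.dep u / D.L) + D.L := by ring
  omega

/-- the sources are far from the pin -/
theorem Fl.far (hD : D.Ok) (hK : 10 ^ 4 ≤ K) (hN : D.NoPl K)
    (hD0 : 600 * (2 * Nat.log 2 D.Kh + 3) ≤ D0) {s : P × V × V} (hs : s ∈ Φ.Sr) :
    4 * Nat.log 2 D.Kh + 6 ≤ S.E.dep s.2.1 / D.L := by
  obtain ⟨⟨h1, _⟩, h2, h3⟩ := Φ.src hs
  have h4 := (Pool.Agent.Helper66.HH.exit_dep hD S hK hN s.1 h1.1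
    (lt_of_le_of_lt (Nat.zero_le _) h1.2.1) h2 h3).1
  have h5 := h1.2.1
  have h6 := dep_lt (S := S) hD s.2.1
  have h7 : D0 * D.L < 300 * (S.E.dep s.2.1 / D.L + 1) * D.L := by
    calc D0 * D.L < _ := h5
      _ ≤ 300 * (S.E.dep s.2.1 + 1) := h4
      _ ≤ 300 * ((S.E.dep s.2.1 / D.L + 1) * D.L) := Nat.mul_le_mul_left _ h6
      _ = _ := by ring
  have h8 := Nat.lt_of_mul_lt_mul_right h7
  omega

/-- the scores below a source -/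
theorem Fl.sc_le {s : P × V × V} (hD : D.Ok) (hs : s ∈ Φ.Sr) {v : V}
    (hv : Anc S.E.par S.E.dep v s.2.2) : (S.E.sc v).natAbs ≤ S.E.dep s.2.1 + 1 := by
  obtain ⟨⟨h1, _⟩, ⟨⟨h2, h2', h2''⟩, _, _⟩, h3⟩ := Φ.src hs
  have h4 := S.E.anc_sc hv
  have h5 := (Pool.Agent.Helper66.HH.exit_sc hD S h2'').1
  have h6 : S.E.sc s.2.1 = S.E.dep s.2.1 := by
    unfold Cel.sc
    rw [h2, S.ra_x _ h1.1]
    simp
  have h7 : -((S.E.dep s.2.1 : ℤ)) ≤ S.E.sc v := by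
    have hc : S.E.ctr v = S.E.ctr s.2.2 := S.E.anc_ctr hv
    have hra : S.ra (S.E.ctr v) ≤ S.E.dep s.2.1 := by
      rw [hc]
      rcases S.E.ctr_mem s.2.2 (Φ.src_VN hs).2 with hz | ⟨p', hp', hx⟩
      · rw [S.ra_Z _ hz]
        by_contra hcon
        exact h3 ⟨hz, by omega⟩
      · rw [← hx, S.ra_x _ hp']
        exact Nat.zero_le _
    unfold Cel.sc
    omega
  omega

/-- the bound for the masses of the sources below `v` -/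
theorem Fl.ms_gm (hD : D.Ok) (hKh : 1 ≤ D.Kh) (hK : 10 ^ 4 ≤ K) (hN : D.NoPl K)
    (hD0 : 600 * (2 * Nat.log 2 D.Kh + 3) ≤ D0) {s : P × V × V} (hs : s ∈ Φ.Sr) {v : V}
    (hv : Anc S.E.par S.E.dep v s.2.2) : Φ.ms s ≤ gm S v := by
  have h1 := Φ.ms_le hD hKh hs
  have h2 := Φ.far hD hK hN hD0 hs
  have h3 := Φ.sc_le hD hs hv
  have h4 := dep_lt (S := S) hD s.2.1
  have hL := Lpos hD
  have h5 : (S.E.sc v).natAbs / (2 * D.L) ≤ (S.E.dep s.2.1 / D.L + 1) / 2 := by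
    calc (S.E.sc v).natAbs / (2 * D.L) ≤ ((S.E.dep s.2.1 / D.L + 1) * D.L) / (2 * D.L) :=
          Nat.div_le_div_right (h3.trans h4)
      _ = _ := Nat.mul_div_mul_right _ _ hL
  have h6 := decay (Kh := D.Kh) (a := S.E.dep s.2.1 / D.L)
    (b := (S.E.sc v).natAbs / (2 * D.L)) hKh (by omega)
  have h7 : (0 : ℝ) < D.Kh := by exact_mod_cast hKh
  unfold gm
  calc Φ.ms s ≤ 8 / D.Kh * (1 / 2) ^ (S.E.dep s.2.1 / D.L) := h1
    _ ≤ 8 / D.Kh * (1 / (D.Kh : ℝ) ^ 2 * (1 / 2) ^ ((S.E.sc v).natAbs / (2 * D.L))) :=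
        mul_le_mul_of_nonneg_left h6 (by positivity)
    _ = _ := by
      field_simp

/-- the bound for the masses of the sources of a cell -/
theorem Fl.ms_gl (hD : D.Ok) (hKh : 1 ≤ D.Kh) (hK : 10 ^ 4 ≤ K) (hN : D.NoPl K)
    (hD0 : 600 * (2 * Nat.log 2 D.Kh + 3) ≤ D0) {s : P × V × V} (hs : s ∈ Φ.Sr) :
    Φ.ms s ≤ 3208 / (D.Kh : ℝ) ^ 3 * (D.L * (1 / ((D.sg (S.E.ctr s.2.2) : ℝ) + D.L))) := by
  have h1 := Φ.ms_le hD hKh hs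
  have h2 := Φ.far hD hK hN hD0 hs
  have h4 := dep_lt (S := S) hD s.2.1
  have hL := Lpos hD
  obtain ⟨⟨k1, _⟩, k2, k3⟩ := Φ.src hs
  have h3 := (Pool.Agent.Helper66.HH.exit_dep hD S hK hN s.1 k1.1
    (lt_of_le_of_lt (Nat.zero_le _) k1.2.1) k2 k3).2
  have h6 := decay' (Kh := D.Kh) (a := S.E.dep s.2.1 / D.L) hKh h2
  have h7 : (0 : ℝ) < D.Kh := by exact_mod_cast hKh
  have hL' : (0 : ℝ) < D.L := by exact_mod_cast hL
  obtain ⟨a, ha⟩ : ∃ a, a = S.E.dep s.2.1 / D.L := ⟨_, rfl⟩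
  rw [← ha] at h1 h4 h6
  have h8 : D.sg (S.E.ctr s.2.2) + D.L ≤ 401 * (a + 1) * D.L := by
    calc D.sg (S.E.ctr s.2.2) + D.L ≤ 400 * ((a + 1) * D.L) + D.L :=
          Nat.add_le_add_right (h3.trans (Nat.mul_le_mul_left _ h4)) _
      _ ≤ 400 * ((a + 1) * D.L) + (a + 1) * D.L := by
          apply Nat.add_le_add_left
          calc D.L = 1 * D.L := (one_mul _).symm
            _ ≤ (a + 1) * D.L := Nat.mul_le_mul_right _ (by omega)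
      _ = _ := by ring
  have h9 : (D.sg (S.E.ctr s.2.2) : ℝ) + D.L ≤ 401 * ((a : ℝ) + 1) * D.L := by exact_mod_cast h8
  have h10 : (0 : ℝ) < (a : ℝ) + 1 := by positivity
  have h11 : 1 / (401 * ((a : ℝ) + 1)) ≤ D.L * (1 / ((D.sg (S.E.ctr s.2.2) : ℝ) + D.L)) := by
    rw [mul_one_div, div_le_div_iff₀ (by positivity) (by positivity)]
    linarith
  have h12 : (1 / 2 : ℝ) ^ a ≤ 1 / (D.Kh : ℝ) ^ 2 * (1 / ((a : ℝ) + 1)) := by
    rw [mul_one_div, le_div_iff₀ h10]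
    exact h6
  calc Φ.ms s ≤ 8 / D.Kh * (1 / 2) ^ a := h1
    _ ≤ 8 / D.Kh * (1 / (D.Kh : ℝ) ^ 2 * (1 / ((a : ℝ) + 1))) :=
        mul_le_mul_of_nonneg_left h12 (by positivity)
    _ = 3208 / (D.Kh : ℝ) ^ 3 * (1 / (401 * ((a : ℝ) + 1))) := by
      field_simp
      norm_num
    _ ≤ _ := mul_le_mul_of_nonneg_left h11 (by positivity)

/-! ### the loads -/

theorem Fl.deg_pos {s : P × V × V} (hs : s ∈ Φ.Sr) {v : V}
    (hv : Anc S.E.par S.E.dep v s.2.2) : 1 ≤ deg D.N v := by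
  have key : ∀ z, D.N.Adj v z → 1 ≤ deg D.N v := by
    intro z hz
    unfold deg
    exact (Set.ncard_pos (Set.toFinite _)).2 ⟨z, hz⟩
  obtain ⟨_, ⟨⟨_, _, h⟩, _, _⟩, _⟩ := Φ.src hs
  by_cases hw : s.2.2 = v
  · rw [hw] at h
    exact key _ h.symm
  · obtain ⟨z, hz0, hz1, _⟩ := Anc.child S.E.par_dep hv (fun h => hw h.symm)
    exact key z (S.E.child_adj hz0 hz1)

variable {Φ}

open Classical in
/-- the blocks with `v` between the top and a member -/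
theorem Bk.inc_sum (Bl : Bk Φ) (hD : D.Ok) (hKh : 1 ≤ D.Kh) (v : V) (g : ℝ) (hg : 0 ≤ g)
    (h : ∀ s ∈ Φ.Sr, Anc S.E.par S.E.dep v s.2.2 → Φ.ms s ≤ g) :
    ∑ x ∈ Bl.T0 with (∃ s ∈ x.2.2, Anc S.E.par S.E.dep (Bl.top x.1 x.2.1 x.2.2) v ∧
      Anc S.E.par S.E.dep v s.2.2), bmu x ≤ 8 * deg D.N v * g := by
  obtain ⟨A, hA⟩ : ∃ A, A = Bl.T0.filter fun x => ∃ s ∈ x.2.2,
      Anc S.E.par S.E.dep (Bl.top x.1 x.2.1 x.2.2) v ∧ Anc S.E.par S.E.dep v s.2.2 := ⟨_, rfl⟩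
  have hAm : ∀ x, x ∈ A ↔ x.2.2 ∈ Bl.B x.1 x.2.1 ∧ x.2.1 ≤ Bl.km ∧ ∃ s ∈ x.2.2,
      Anc S.E.par S.E.dep (Bl.top x.1 x.2.1 x.2.2) v ∧ Anc S.E.par S.E.dep v s.2.2 := by
    intro x
    rw [hA, Finset.mem_filter, Bl.mem_T0]
    tauto
  have hsrc : ∀ x ∈ A, ∃ s ∈ Φ.Sr, Anc S.E.par S.E.dep v s.2.2 ∧ Bl.cls s = x.2.1 ∧
      x.1 = S.E.ctr v := by
    intro x hx
    obtain ⟨h1, _, s, hs, _, h3⟩ := (hAm x).1 hx
    obtain ⟨g1, g2, g3⟩ := Bl.sub _ _ _ h1 s hs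
    exact ⟨s, g1, h3, g3, g2.symm.trans (S.E.anc_ctr h3).symm⟩
  rw [← hA]
  rcases A.eq_empty_or_nonempty with h0 | ⟨x0, hx0⟩
  · rw [h0, Finset.sum_empty]
    positivity
  obtain ⟨s0, hs0, hs0', _⟩ := hsrc x0 hx0
  have hdeg := Φ.deg_pos hs0 hs0'
  have hcnt : ∀ k, (A.filter fun x => x.2.1 = k).card ≤ 2 + 2 * deg D.N v := by
    intro k
    have h1 := blocks_at S.E (fun s : P × V × V => s.2.2) (Bl.B (S.E.ctr v) k)
      (Bl.disj _ _) (fun u => by convert Bl.uses (S.E.ctr v) k u)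
      (Bl.top (S.E.ctr v) k) (Bl.topp _ _) v
      (by
        refine le_trans (Set.ncard_le_ncard ?_ (Set.toFinite _)) (Φ.at_count hD hKh v)
        rintro i ⟨⟨β, hβ, hi⟩, hv⟩
        exact ⟨(Bl.sub _ _ _ hβ i hi).1, hv⟩) (Set.toFinite _)
    refine le_trans ?_ h1
    refine Finset.card_le_card_of_injOn (fun x => x.2.2) ?_ ?_
    · intro x hx
      obtain ⟨hxA, hk⟩ := Finset.mem_filter.1 (Finset.mem_coe.1 hx)
      obtain ⟨_, _, _, _, e1⟩ := hsrc x hxA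
      obtain ⟨h2, _, s, hs, h3, h4⟩ := (hAm x).1 hxA
      rw [e1, hk] at h2 h3
      exact Finset.mem_coe.2 (Finset.mem_filter.2 ⟨h2, s, hs, h3, h4⟩)
    · intro x hx y hy hxy
      obtain ⟨hxA, hk⟩ := Finset.mem_filter.1 (Finset.mem_coe.1 hx)
      obtain ⟨hyA, hk'⟩ := Finset.mem_filter.1 (Finset.mem_coe.1 hy)
      obtain ⟨_, _, _, _, e1⟩ := hsrc x hxA
      obtain ⟨_, _, _, _, e2⟩ := hsrc y hyA
      exact Prod.ext (e1.trans e2.symm) (Prod.ext (hk.trans hk'.symm) hxy)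
  have hfib := Finset.sum_fiberwise_of_maps_to (s := A) (t := A.image fun x => x.2.1)
    (g := fun x => x.2.1) (fun x hx => Finset.mem_image_of_mem _ hx) (fun x => bmu x)
  rw [← hfib]
  have h2 : ∀ k ∈ A.image (fun x => x.2.1), ∑ x ∈ A with x.2.1 = k, bmu x ≤
      (2 + 2 * deg D.N v : ℝ) * (1 / 2) ^ (k + 1) := by
    intro k _
    have h3 : ∀ x ∈ A.filter (fun x => x.2.1 = k), bmu x = (1 / 2 : ℝ) ^ (k + 1) := by
      intro x hx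
      unfold bmu
      rw [(Finset.mem_filter.1 hx).2]
    rw [Finset.sum_congr rfl h3, Finset.sum_const, nsmul_eq_mul]
    apply mul_le_mul_of_nonneg_right _ (by positivity)
    exact_mod_cast hcnt k
  refine (Finset.sum_le_sum h2).trans ?_
  rw [← Finset.mul_sum]
  have h4 := geo_sum_le (A.image fun x => x.2.1) g hg (by
    intro k hk
    obtain ⟨x, hx, hk⟩ := Finset.mem_image.1 hk
    obtain ⟨s, hs, h5, h6, _⟩ := hsrc x hx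
    have h7 := (Bl.hcls s hs).1
    rw [h6, hk] at h7
    exact h7.le.trans (h s hs h5))
  have h5 : (1 : ℝ) ≤ deg D.N v := by exact_mod_cast hdeg
  calc (2 + 2 * deg D.N v : ℝ) * ∑ k ∈ A.image (fun x => x.2.1), (1 / 2 : ℝ) ^ (k + 1) ≤
        (2 + 2 * deg D.N v : ℝ) * (2 * g) := mul_le_mul_of_nonneg_left h4 (by positivity)
    _ ≤ (4 * deg D.N v : ℝ) * (2 * g) := by
        apply mul_le_mul_of_nonneg_right _ (by positivity)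
        linarith
    _ = _ := by ring

end Pool.Agent.Helper93.HH
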