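import Pool.Agent.Helper93.HH.FH
import Pool.Agent.Helper43.HH.LegSum

/-!
# HH: the loads of the tripods of the blocks
-/

open Set
open Pool.Agent.Helper83.OP
open Pool.Agent.Helper43.HH

namespace Pool.Agent.Helper93.HH

open HD

variable {V P Q : Type} [Fintype V] [Fintype P] [Finite Q] {D : HD V P Q} {K : ℕ}
  {S : Sys D K} {e0 : Sym2 V} {D0 M : ℕ} {Φ : Fl S e0 D0 M}

theorem anc_VN {u v : V} (h : Anc S.E.par S.E.dep u v) (hv : v ∈ D.VN) : u ∈ D.VN := by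
  by_cases hne : u = v
  · rw [hne]
    exact hv
  · obtain ⟨z, hz0, hz1, _⟩ := Anc.child S.E.par_dep h hne
    exact VN_of_adj (S.E.child_adj hz0 hz1)

open Classical in
/-- the load of a vertex -/
theorem Bk.load (Bl : Bk Φ) (hD : D.Ok) (hKh : 1 ≤ D.Kh) (hK : 10 ^ 4 ≤ K) (hN : D.NoPl K)
    (hD0 : 600 * (2 * Nat.log 2 D.Kh + 3) ≤ D0) {H : SimpleGraph V}
    (T : V × ℕ × Finset (P × V × V) → Tri H D.U)
    (hT : ∀ x ∈ Bl.T0, ∀ v ∈ (T x).vs, ∃ s ∈ x.2.2, OnLeg S (Bl.top x.1 x.2.1 x.2.2) s v)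
    (v : V) (hv : v ∉ D.U) : phiV Bl.T0 T bmu v ≤ gV S v := by
  have hb0 : ∀ x : V × ℕ × Finset (P × V × V), 0 ≤ bmu x := fun x => by
    unfold bmu
    positivity
  have hsub : ∀ x ∈ Bl.T0, ∀ s ∈ x.2.2, s ∈ Φ.Sr := fun x hx s hs =>
    (Bl.sub _ _ _ ((Bl.mem_T0 x).1 hx).2 s hs).1
  unfold phiV gV
  by_cases hVN : v ∈ D.VN
  · rw [if_pos hVN]
    have h1 : (Bl.T0.filter fun x => v ∈ (T x).vs) ⊆
        (Bl.T0.filter fun x => ∃ s ∈ x.2.2, Anc S.E.par S.E.dep v s.2.1) ∪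
        (Bl.T0.filter fun x => ∃ s ∈ x.2.2, Anc S.E.par S.E.dep (Bl.top x.1 x.2.1 x.2.2) v ∧
          Anc S.E.par S.E.dep v s.2.2) := by
      intro x hx
      obtain ⟨hx0, hxv⟩ := Finset.mem_filter.1 hx
      obtain ⟨s, hs, h | h | h⟩ := hT x hx0 v hxv
      · exact Finset.mem_union_right _ (Finset.mem_filter.2 ⟨hx0, s, hs, h⟩)
      · exact Finset.mem_union_left _ (Finset.mem_filter.2 ⟨hx0, s, hs, h⟩)
      · exact absurd hVN (hD.w_N _ v h.1 h.2)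
    calc _ ≤ ∑ x ∈ (Bl.T0.filter fun x => ∃ s ∈ x.2.2, Anc S.E.par S.E.dep v s.2.1) ∪
        (Bl.T0.filter fun x => ∃ s ∈ x.2.2, Anc S.E.par S.E.dep (Bl.top x.1 x.2.1 x.2.2) v ∧
          Anc S.E.par S.E.dep v s.2.2), bmu x :=
          Finset.sum_le_sum_of_subset_of_nonneg h1 fun x _ _ => hb0 x
      _ ≤ ∑ x ∈ (Bl.T0.filter fun x => ∃ s ∈ x.2.2, Anc S.E.par S.E.dep v s.2.1), bmu x +
        ∑ x ∈ (Bl.T0.filter fun x => ∃ s ∈ x.2.2,
          Anc S.E.par S.E.dep (Bl.top x.1 x.2.1 x.2.2) v ∧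
          Anc S.E.par S.E.dep v s.2.2), bmu x := by
          rw [← Finset.sum_union_inter]
          exact le_add_of_nonneg_right (Finset.sum_nonneg fun x _ => hb0 x)
      _ ≤ _ := by
          refine add_le_add ?_ ?_
          · exact (Bl.blk_sum fun s => Anc S.E.par S.E.dep v s.2.1).trans (Φ.own_sum hD hKh v)
          · exact Bl.inc_sum hD hKh v (gm S v) (gm_nonneg S v)
              fun s hs hvs => Φ.ms_gm hD hKh hK hN hD0 hs hvs
  · rw [if_neg hVN]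
    obtain ⟨R, hR⟩ : ∃ R : P × V × V → Prop, ∀ s, R s ↔ v ∈ (D.w s.1).support ∧ v ≠ D.x s.1 :=
      ⟨_, fun s => Iff.rfl⟩
    have h1 : (Bl.T0.filter fun x => v ∈ (T x).vs) ⊆
        (Bl.T0.filter fun x => ∃ s ∈ x.2.2, R s) := by
      intro x hx
      obtain ⟨hx0, hxv⟩ := Finset.mem_filter.1 hx
      obtain ⟨s, hs, h | h | h⟩ := hT x hx0 v hxv
      · exact absurd (anc_VN h.2 (Φ.src_VN (hsub x hx0 s hs)).2) hVN
      · exact absurd (anc_VN h (Φ.src_VN (hsub x hx0 s hs)).1) hVN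
      · exact Finset.mem_filter.2 ⟨hx0, s, hs, (hR s).2 h⟩
    refine (Finset.sum_le_sum_of_subset_of_nonneg h1 fun x _ _ => hb0 x).trans ?_
    refine (Bl.blk_sum R).trans ?_
    by_cases hex : ∃ s ∈ Φ.Sr, R s
    · obtain ⟨s0, _, h23⟩ := hex
      obtain ⟨h2, h3⟩ := (hR s0).1 h23
      refine le_trans (Finset.sum_le_sum_of_subset_of_nonneg ?_ fun s _ _ => Φ.ms0 s)
        (Φ.pin_sum hD hKh s0.1)
      intro s hs
      obtain ⟨hs1, h45⟩ := Finset.mem_filter.1 hs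
      obtain ⟨h4, h5⟩ := (hR s).1 h45
      refine Finset.mem_filter.2 ⟨hs1, ?_⟩
      exact hD.w_disj _ _ v h4 h2 h5 fun h => hv (h ▸ hD.hub_U _)
    · rw [Finset.filter_false_of_mem, Finset.sum_empty]
      · positivity
      · intro s hs h
        exact hex ⟨s, hs, h⟩

end Pool.Agent.Helper93.HH
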