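import Pool.Agent.Helper93.HH.FI
import Pool.Agent.Helper43.HH.LegLoad
import Pool.Agent.Helper23.HH.Left
import Pool.Agent.Helper5.HH.Tri
import Pool.Agent.Helper85.HH.Dropped
import Pool.Agent.Helper33.HH.DH

/-!
# HH: the flow of the isolated pins
-/

open Set
open Pool.Agent.Helper83.OP
open Pool.Agent.Helper43.HH

namespace Pool.Agent.Helper93.HH

open HD

section

variable {V P Q : Type} [Fintype V] [Fintype P] [Finite Q] {D : HD V P Q} {K : ℕ}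
  {S : Sys D K} {e0 : Sym2 V} {D0 M : ℕ} {Φ : Fl S e0 D0 M}

open Classical in
/-- the mass of the blocks -/
theorem Bk.bmu_sum (Bl : Bk Φ) (hD : D.Ok) (hKh : 1 ≤ D.Kh) (hK : 10 ^ 4 ≤ K) (hN : D.NoPl K)
    (hD0 : 600 * (2 * Nat.log 2 D.Kh + 3) ≤ D0) {H : SimpleGraph V} {X : Sym2 V → Sym2 V → Prop}
    (hX : D.Dr H e0 X)
    (hdh : ∀ (p p' : P), Iso S D0 M p → Iso S D0 M p' → p ≠ p' →
      ∀ u w u' w', Al S p u w → Al S p' u' w' → ¬ Drop S u w → ¬ Drop S u' w' →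
      S.E.ctr w = S.E.ctr w' → D.hub p ≠ D.hub p') :
    ∑ x ∈ Bl.T0, bmu x ≤ 180000 * D.L / D.Kh * (132 * D.U.ncard) := by
  have hKh0 : (0 : ℝ) < D.Kh := by exact_mod_cast hKh
  rcases Bl.T0.eq_empty_or_nonempty with h0 | ⟨x0, hx0⟩
  · rw [h0, Finset.sum_empty]
    positivity
  have hex : ∀ x, ∃ T : Leg3 D e0, x ∈ Bl.T0 → ∀ k, ∃ s ∈ x.2.2, T.p k = s.1 ∧
      (∀ v ∈ (T.W k).support, OnLeg S (Bl.top x.1 x.2.1 x.2.2) s v) ∧
      ∀ g : V → ℝ, (∀ v, 0 ≤ g v) → ((T.W k).support.map g).sum ≤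
        ∑ j ∈ Finset.range (S.E.dep s.2.2 + 1), g (S.E.par^[j] s.2.2) +
        ∑ j ∈ Finset.range (S.E.dep s.2.1 + 1), g (S.E.par^[j] s.2.1) := by
    intro x
    by_cases hx : x ∈ Bl.T0
    · obtain ⟨T, hT⟩ := Pool.Agent.Helper5.HH.exists_tri Bl hD (by omega) hdh x hx
      exact ⟨T, fun _ => hT⟩
    · obtain ⟨T, _⟩ := Pool.Agent.Helper5.HH.exists_tri Bl hD (by omega) hdh x0 hx0
      exact ⟨T, fun h => absurd h hx⟩
  choose T hT using hex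
  have hb0 : ∀ x : V × ℕ × Finset (P × V × V), 0 ≤ bmu x := fun x => by
    unfold bmu
    positivity
  have hvs : ∀ x ∈ Bl.T0, ∀ v ∈ ((T x).tri hD hX).vs,
      ∃ s ∈ x.2.2, OnLeg S (Bl.top x.1 x.2.1 x.2.2) s v := by
    intro x hx v hv
    obtain ⟨_, k, h1⟩ := ((T x).mem_vs hD hX v).1 hv
    obtain ⟨s, hs, h2, h3, _⟩ := hT x hx k
    refine ⟨s, hs, ?_⟩
    rcases h1 with h1 | h1
    · exact h3 v h1
    · by_cases hvx : v = D.x ((T x).p k)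
      · apply h3
        rw [hvx]
        exact SimpleGraph.Walk.end_mem_support _
      · rw [h2] at h1 hvx
        exact Or.inr (Or.inr ⟨h1, hvx⟩)
  have hload : ∀ v, v ∉ D.U → phiV Bl.T0 (fun x => (T x).tri hD hX) bmu v ≤ gV S v :=
    fun v hv => Bl.load hD hKh hK hN hD0 (fun x => (T x).tri hD hX) hvs v hv
  refine el_uniform X hX.sym hX.one hX.pl Bl.T0 (fun x => (T x).tri hD hX) bmu
    (fun x _ => hb0 x) (180000 * D.L / D.Kh) (by positivity) ?_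
  intro x hx
  have h1 := leg_sum (T x) hD hX (gV S) (gV_nonneg S)
    (phiE Bl.T0 (fun x => (T x).tri hD hX) bmu) (by
      intro f _ v hvf hvU
      refine le_trans ?_ (hload v hvU)
      unfold phiE phiV
      refine Finset.sum_le_sum_of_subset_of_nonneg ?_ fun y _ _ => hb0 y
      intro y hy
      obtain ⟨hy1, hy2⟩ := Finset.mem_filter.1 hy
      refine Finset.mem_filter.2 ⟨hy1, ?_⟩
      rw [Leg3.mem_es] at hy2
      rw [Leg3.mem_vs]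
      obtain ⟨k, h3⟩ := hy2
      refine ⟨hvU, k, ?_⟩
      rcases h3 with h3 | h3
      · exact Or.inl (SimpleGraph.Walk.mem_support_of_mem_edges h3 hvf)
      · exact Or.inr (SimpleGraph.Walk.mem_support_of_mem_edges h3 hvf))
  have h2 : ∑ v ∈ ((T x).tri hD hX).vs.toFinset, phiV Bl.T0 (fun x => (T x).tri hD hX) bmu v ≤
      ∑ v ∈ ((T x).tri hD hX).vs.toFinset, gV S v := by
    refine Finset.sum_le_sum fun v hv => hload v ?_
    exact (((T x).mem_vs hD hX v).1 (Set.mem_toFinset.1 hv)).1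
  have h3 : ∀ k : Fin 3, (((T x).W k).support.map (gV S)).sum +
      ∑ z ∈ pinIn D ((T x).p k), gV S z ≤ 30000 * D.L / D.Kh := by
    intro k
    obtain ⟨s, hs, h4, _, h5⟩ := hT x hx k
    have hsr : s ∈ Φ.Sr := (Bl.sub _ _ _ ((Bl.mem_T0 x).1 hx).2 s hs).1
    have h6 := h5 (gV S) (gV_nonneg S)
    have h7 := Pool.Agent.Helper43.HH.leg_load Φ hD hKh hsr
    rw [← h4] at h7
    linarith
  have h4 : ∑ k : Fin 3, ((((T x).W k).support.map (gV S)).sum +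
      ∑ z ∈ pinIn D ((T x).p k), gV S z) ≤ 3 * (30000 * D.L / D.Kh) := by
    refine (Finset.sum_le_sum fun k _ => h3 k).trans ?_
    rw [Finset.sum_const, nsmul_eq_mul]
    simp
  have h5 : 2 * (3 * (30000 * D.L / D.Kh)) = (180000 : ℝ) * D.L / D.Kh := by ring
  linarith

end

open Classical in
theorem FL (C0 : ℕ) : ∃ A : ℕ, ∀ Kh D0 M : ℕ, 1 ≤ Kh → A * (Nat.log 2 Kh + 1) ≤ D0 → ∃ K1 : ℕ,
    ∀ (V P Q : Type) [Finite V] [Fintype P] [Finite Q]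
    (D : HD V P Q) (K : ℕ) (H : SimpleGraph V) (e0 : Sym2 V) (X : Sym2 V → Sym2 V → Prop)
    (S : Sys D K), D.Ok → D.L ≤ C0 * D.r → D.Kh = Kh → K1 ≤ K → D.NoPl K → D.Dr H e0 X →
    ∑ p : P, (if (p ∉ S.Bd ∧ e0 ∉ (D.w p).edges) ∧ D0 * D.L < D.sg (D.x p) ∧
        deg D.G (D.hub p) ≤ M * (D.sg (D.x p) + D.L)
      then (D.r : ℝ) / deg D.G (D.hub p) else 0) ≤
    A * ((D.r : ℝ) * D.U.ncard / Kh + S.Z.ncard + (D.L : ℝ) / (Kh : ℝ) ^ 2 *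
      ∑ p : P, (if p ∈ S.Bd then 0 else 1 / ((D.sg (D.x p) : ℝ) + D.L))) := by
  refine ⟨1000000000 * (C0 + 1), ?_⟩
  intro Kh D0 M hKh hD0
  obtain ⟨K1, hdh⟩ := Pool.Agent.Helper33.HH.diff_hubs M
  refine ⟨K1 + 10 ^ 4, ?_⟩
  intro V P Q _ _ _ D K H e0 X S hD hL hDK hK hN hX
  have := Fintype.ofFinite V
  subst hDK
  have hD1 : 1000000000 * (Nat.log 2 D.Kh + 1) ≤ D0 := by
    refine le_trans ?_ hD0
    apply Nat.mul_le_mul_right
    calc 1000000000 = 1000000000 * 1 := by norm_num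
      _ ≤ 1000000000 * (C0 + 1) := Nat.mul_le_mul_left _ (Nat.le_add_left _ _)
  have hD2 : 600 * (2 * Nat.log 2 D.Kh + 3) ≤ D0 := by
    clear hD0
    omega
  have hD3 : 10 ^ 6 ≤ D0 := by
    clear hD0
    norm_num
    omega
  have hK4 : 10 ^ 4 ≤ K := le_trans (Nat.le_add_left _ _) hK
  have hK1 : K1 ≤ K := le_trans (Nat.le_add_right _ _) hK
  have hK10 : 10 ≤ K := le_trans (by norm_num) hK4
  obtain ⟨Φ⟩ := Pool.Agent.Helper85.HH.exists_fl hD S hK10 e0 D0 M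
  obtain ⟨Bl⟩ := exists_bk Φ hD hKh
  have h1 := Bl.bmu_sum hD hKh hK4 hN hD2 hX (hdh V P Q D K S D0 hD hK1 hN hD3)
  have h2 := Pool.Agent.Helper23.HH.blocks_sum Bl
  have h0 : (0 : ℝ) < D.Kh := by exact_mod_cast hKh
  have hk1 : (1 : ℝ) ≤ D.Kh := by exact_mod_cast hKh
  obtain ⟨gl, hgl⟩ : ∃ gl : V → ℝ, ∀ c, gl c = if c ∈ S.Z then 1 else
      3208 / (D.Kh : ℝ) ^ 3 * (D.L * (1 / ((D.sg c : ℝ) + D.L))) := ⟨_, fun c => rfl⟩
  have hgl0 : ∀ c, 0 ≤ gl c := by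
    intro c
    rw [hgl]
    split_ifs
    · norm_num
    · positivity
  have h3 := Pool.Agent.Helper23.HH.left_sum Bl gl hgl0 (by
    intro s hs
    rw [hgl]
    split_ifs
    · exact Φ.ms_le_one hD hKh
    · exact Φ.ms_gl hD hKh hK4 hN hD2 hs)
  have h4 := Pool.Agent.Helper23.HH.cen_sum hD Φ gl hgl0 1 (3208 / (D.Kh : ℝ) ^ 3 * D.L) (by norm_num) (by positivity)
    (by
      intro z hz
      rw [hgl, if_pos hz])
    (by
      intro p _ hpZ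
      rw [hgl, if_neg hpZ, mul_assoc])
  have h5 := Pool.Agent.Helper85.HH.dropped_sum Φ hD hKh hK10
  have h6 := Pool.Agent.Helper85.HH.total_sum Φ
  have h7 : ∑ s ∈ Φ.Sr, Φ.ms s =
      ∑ s ∈ Φ.Sr with (∀ β ∈ Bl.B (S.E.ctr s.2.2) (Bl.cls s), s ∉ β), Φ.ms s +
      ∑ s ∈ Φ.Sr with ¬ (∀ β ∈ Bl.B (S.E.ctr s.2.2) (Bl.cls s), s ∉ β), Φ.ms s :=
    (Finset.sum_filter_add_sum_filter_not _ _ _).symm
  obtain ⟨T, hT⟩ : ∃ T : ℝ, T = ∑ p : P, (if p ∈ S.Bd then 0 else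
    1 / ((D.sg (D.x p) : ℝ) + D.L)) := ⟨_, rfl⟩
  have hT0 : 0 ≤ T := by
    rw [hT]
    apply Finset.sum_nonneg
    intro p _
    split_ifs <;> positivity
  rw [← hT] at h4 ⊢
  have h8 : 3208 / (D.Kh : ℝ) ^ 3 * D.L * T ≤ 3208 * ((D.L : ℝ) / (D.Kh : ℝ) ^ 2 * T) := by
    have h9 : (1 : ℝ) / (D.Kh : ℝ) ^ 3 ≤ 1 / (D.Kh : ℝ) ^ 2 :=
      one_div_le_one_div_of_le (by positivity) (pow_le_pow_right₀ hk1 (by norm_num))
    calc 3208 / (D.Kh : ℝ) ^ 3 * D.L * T = 3208 * D.L * T * (1 / (D.Kh : ℝ) ^ 3) := by ring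
      _ ≤ 3208 * D.L * T * (1 / (D.Kh : ℝ) ^ 2) :=
          mul_le_mul_of_nonneg_left h9 (by positivity)
      _ = _ := by ring
  have h10 : (180000 : ℝ) * D.L / D.Kh * (132 * D.U.ncard) ≤
      23760000 * C0 * ((D.r : ℝ) * D.U.ncard / D.Kh) := by
    have h11 : (D.L : ℝ) ≤ C0 * D.r := by exact_mod_cast hL
    calc (180000 : ℝ) * D.L / D.Kh * (132 * D.U.ncard) =
          23760000 * D.L * (D.U.ncard / D.Kh) := by ring
      _ ≤ 23760000 * (C0 * D.r) * (D.U.ncard / D.Kh) := by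
          apply mul_le_mul_of_nonneg_right _ (by positivity)
          linarith
      _ = _ := by ring
  obtain ⟨a, ha⟩ : ∃ a : ℝ, a = (D.r : ℝ) * D.U.ncard / D.Kh := ⟨_, rfl⟩
  obtain ⟨b, hb⟩ : ∃ b : ℝ, b = (D.L : ℝ) / (D.Kh : ℝ) ^ 2 * T := ⟨_, rfl⟩
  have ha0 : 0 ≤ a := by rw [ha]; positivity
  have hb0 : 0 ≤ b := by rw [hb]; positivity
  rw [← ha] at h10 ⊢
  rw [← hb] at h8 ⊢
  have hz0 : (0 : ℝ) ≤ S.Z.ncard := by positivity
  have hc0 : (0 : ℝ) ≤ C0 := by positivity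
  refine h6.trans ?_
  push_cast
  have e1 : ∑ s ∈ Φ.Sr, Φ.ms s ≤ 8 * (1 * S.Z.ncard + 3208 * b) + 6 * (23760000 * C0 * a) := by
    rw [h7]
    linarith
  have e2 : (0 : ℝ) ≤ C0 * a := by positivity
  have e3 : (0 : ℝ) ≤ C0 * b := by positivity
  have e4 : (0 : ℝ) ≤ C0 * S.Z.ncard := by positivity
  nlinarith

end Pool.Agent.Helper93.HH
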