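import Pool.Agent.Helper93.HH.Basic

/-!
# HH: partners, the system of cells
-/

open Set
open Pool.Agent.Helper83.OP

namespace Pool.Agent.Helper93.HH

/-- the partner of a pin -/
noncomputable def HD.pt {V P Q : Type} (D : HD V P Q) (p : P) : P :=
  open Classical in
  if h : ∃ q, q ≠ p ∧ Nr D.N (D.gp p) (D.x p) (D.x q) then h.choose else p

/-- The system of cells: `Z` are the thick centres, `Bd` the bad pins (the drawing plays no role here). -/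
structure Sys {V P Q : Type} [Finite V] (D : HD V P Q) (K : ℕ) where
  Z : Set V
  Bd : Set P
  ra : V → ℕ
  E : Cel D (Z ∪ D.x '' Bdᶜ) ra
  Z_VN : ∀ z ∈ Z, z ∈ D.VN
  Z_thick : ∀ z ∈ Z, D.Thick z
  ra_Z : ∀ z ∈ Z, ra z = D.Rv z
  ra_x : ∀ p ∉ Bd, ra (D.x p) = 0
  bd_thick : ∀ p, D.Thick (D.x p) → p ∈ Bd
  bd_card : ∀ p, D.sg (D.x p) = Nat.card V → p ∈ Bd
  bd_ball : ∀ p, ∀ z ∈ Z, Nr D.N (D.Rv z) z (D.x p) → p ∈ Bd
  bd_count : Bd.ncard ≤ 8 * Z.ncard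
  /-- in the cell of a good pin there is at most one pin at another vertex -/
  bd_one : ∀ v v', (∃ p, D.x p = v) → (∃ p, D.x p = v') → E.ctr v = E.ctr v' → E.ctr v ∉ Z →
    E.ctr v ≠ v → E.ctr v' ≠ v' → v = v' ∧ {p | D.x p = v}.ncard ≤ 1
  sc_le : ∀ y ∈ D.VN, |E.sc y| ≤ 200 * D.Rs y
  sparse : ∀ v (C : D.N.Walk v v), C.IsCycle → ∀ y ∈ C.support,
    (K : ℤ) * (|E.sc y| + D.L) < C.length

end Pool.Agent.Helper93.HH
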